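import Pool.Agent.ShghQG.Final

/-!
# Large multiplicities: the main theorem and the case of Cremona-standard classes
-/

namespace ShghQG

open ShghQ MvPolynomial

/-- If `22 m² ≤ μ i0`: `finalA` with `I = B`, `J = ∅`. Otherwise `finalB` with `I = insert i0 B`
(`Σ_{i ∈ insert i0 B} (μ i + m) + 22 m² ≤ (22 m² + m) + (δ - 45 m²) + 22 m² ≤ δ`). -/
theorem main {k : Type*} [Field k] {s : ℕ} (P : Fin s → Fin 2 → k)
    (hP : AlgebraicIndependent (⊥ : Subfield k) (fun ij : Fin s × Fin 2 => P ij.1 ij.2))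
    (δ : ℕ) (μ : Fin s → ℕ) (m κ : ℕ) (i0 : Fin s) (B : Finset (Fin s)) (hm : 1 ≤ m)
    (hκ1 : 1 ≤ κ) (hi0 : i0 ∉ B) (hU : ∀ i, i ≠ i0 → i ∉ B → μ i ≤ m)
    (hκ : (((Finset.univ \ insert i0 B).image μ).erase 0).card ≤ κ)
    (hB : ∀ i ∈ B, μ i ≤ μ i0 ∧ μ i + μ i0 ≤ δ)
    (hsum : ∑ i ∈ B, (μ i + m) + 45 * m ^ 2 ≤ δ) (h1 : μ i0 + 40 * κ * m ≤ δ)
    (h2 : 12800 * κ * m ^ 4 ≤ δ ^ 2) :
    (Module.finrank k (ShghT.LS δ μ P) : ℤ) =
      max 0 (((δ + 2).choose 2 : ℤ) - ∑ i, ((μ i + 1).choose 2 : ℤ)) := by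
  classical
  rcases le_or_gt (22 * m ^ 2) (μ i0) with hcase | hcase
  · refine finalA P hP δ μ m κ i0 B ∅ hm hκ1 (Finset.disjoint_empty_right _) ?_ ?_ ?_ ?_ ?_ ?_ h1
    · rwa [Finset.union_empty]
    · intro i hi hiB
      rw [Finset.union_empty] at hiB
      exact hU i hi hiB
    · rwa [Finset.union_empty]
    · intro i hi
      rw [Finset.union_empty] at hi
      exact (hB i hi).2
    · omega
    · rw [Finset.sum_empty]
      omega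
  · refine finalB P hP δ μ m κ (insert i0 B) hm hκ1 ?_ hκ ?_ ?_ h2
    · intro i hi
      rw [Finset.mem_insert, not_or] at hi
      exact hU i hi.1 hi.2
    · intro i hi
      rcases Finset.mem_insert.1 hi with rfl | hi
      · exact hcase.le
      · exact (hB i hi).1.trans hcase.le
    · rw [Finset.sum_insert hi0]
      have h3 : m ≤ m ^ 2 := by nlinarith
      omega

/-- `main` with `i0 = i₁` and `B = {i₂, i₃}`. `hsum`: if `47 m² ≤ μ i₁` from `hstd`; otherwise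
`μ i₂ + μ i₃ + 2 m + 45 m² ≤ 141 m² ≤ δ` as `δ² ≥ 20000 m⁴ ≥ (141 m²)²`. -/
theorem std {k : Type*} [Field k] {s : ℕ} (P : Fin s → Fin 2 → k)
    (hP : AlgebraicIndependent (⊥ : Subfield k) (fun ij : Fin s × Fin 2 => P ij.1 ij.2))
    (δ : ℕ) (μ : Fin s → ℕ) (m κ : ℕ) (i₁ i₂ i₃ : Fin s) (hm : 1 ≤ m)
    (hκ1 : 1 ≤ κ) (h12 : i₁ ≠ i₂) (h13 : i₁ ≠ i₃) (h23 : i₂ ≠ i₃)
    (hle2 : μ i₂ ≤ μ i₁) (hle3 : μ i₃ ≤ μ i₁) (hstd : μ i₁ + μ i₂ + μ i₃ ≤ δ)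
    (hU : ∀ i, i ≠ i₁ → i ≠ i₂ → i ≠ i₃ → μ i ≤ m)
    (hκ : (((Finset.univ \ {i₁, i₂, i₃}).image μ).erase 0).card ≤ κ)
    (h1 : μ i₁ + 40 * κ * m ≤ δ) (h2 : 20000 * κ * m ^ 4 ≤ δ ^ 2) :
    (Module.finrank k (ShghT.LS δ μ P) : ℤ) =
      max 0 (((δ + 2).choose 2 : ℤ) - ∑ i, ((μ i + 1).choose 2 : ℤ)) := by
  have hm2 : m ≤ m ^ 2 := by nlinarith
  refine main P hP δ μ m κ i₁ {i₂, i₃} hm hκ1 ?_ ?_ hκ ?_ ?_ h1 ?_
  · simp [h12, h13]
  · intro i hi hiB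
    simp only [Finset.mem_insert, Finset.mem_singleton, not_or] at hiB
    exact hU i hi hiB.1 hiB.2
  · intro i hi
    simp only [Finset.mem_insert, Finset.mem_singleton] at hi
    rcases hi with rfl | rfl
    · exact ⟨hle2, by omega⟩
    · exact ⟨hle3, by omega⟩
  · rw [Finset.sum_pair h23]
    rcases le_or_gt (47 * m ^ 2) (μ i₁) with hcase | hcase
    · omega
    · have h3 : (141 * m ^ 2) ^ 2 ≤ δ ^ 2 := by
        refine le_trans ?_ h2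
        calc (141 * m ^ 2) ^ 2 = 19881 * m ^ 4 := by ring
          _ ≤ 20000 * κ * m ^ 4 := Nat.mul_le_mul_right _ (by omega)
      have h4 : 141 * m ^ 2 ≤ δ := (Nat.pow_le_pow_iff_left (by norm_num)).1 h3
      omega
  · refine le_trans (Nat.mul_le_mul_right _ ?_) h2
    exact Nat.mul_le_mul_right _ (by norm_num)

end ShghQG
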