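import Pool.Agent.ShghQG.CloR
import Pool.Agent.ShghQ.CloStep
import Pool.Agent.ShghQ.CloInit

/-!
# Closing phase (general demands)
-/

namespace ShghQG

open ShghQ

theorem Close_pat01 (μ l : ℕ) : pat μ 0 1 l = μ - l := by
  unfold pat
  rcases Nat.eq_zero_or_pos l with h | h
  · subst h
    simp
  · rw [if_neg (by omega)]
    by_cases h1 : l = 0 + 1
    · rw [if_pos h1, h1]
    · rw [if_neg h1]

theorem Close_sum_rep (b : ℕ) (f : ℕ × ℕ → ℕ) (z : ℕ × ℕ) :
    ((List.replicate b z).map f).sum = b * f z := by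
  rw [List.map_replicate, List.sum_replicate, smul_eq_mul]

theorem Close_step {m μ q0 N x : ℕ} {D F : ℕ → ℕ} (hμ : 1 ≤ μ) (hμm : μ ≤ m) (hq : 2 * m ≤ q0)
    (hD : ∀ l, l ≤ q0 → 8 * m ^ 2 + m * (D l - D (l - 1)) ≤ D l)
    (h20 : ∀ l, l ≤ 2 * m → 20 * m ^ 2 + m * (D l - D (l - 1)) ≤ D l)
    (hconc : ∀ l, l + 2 ≤ m → D l + D (l + 2) ≤ 2 * D (l + 1))
    (hx1 : 1 ≤ x) (hxq : x + 1 ≤ q0)
    (h : ∃ (Z : List (ℕ × ℕ)) (ρ : ℤ) (e : List ℕ), (Z.length : ℤ) + ρ = N ∧
      (∀ z ∈ Z, Adm (q0 + 1) μ z.1 z.2) ∧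
      Clo m μ q0 D (fun l => F l + (Z.map fun z => pat μ z.1 z.2 l).sum) ρ (x + 1) e) :
    ∃ (Z : List (ℕ × ℕ)) (ρ : ℤ) (e : List ℕ), (Z.length : ℤ) + ρ = N ∧
      (∀ z ∈ Z, Adm (q0 + 1) μ z.1 z.2) ∧
      Clo m μ q0 D (fun l => F l + (Z.map fun z => pat μ z.1 z.2 l).sum) ρ x e := by
  obtain ⟨Z, ρ, e, hlen, hadm, hclo⟩ := h
  have hm : 1 ≤ m := by omega
  have hmq : m ≤ q0 := by omega
  have hmZ : (1 : ℤ) ≤ m := by exact_mod_cast hm
  have hμmZ : (μ : ℤ) ≤ m := by exact_mod_cast hμm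
  have key : 3 * ((min μ x : ℕ) : ℤ) + 1 ≤
      (D x : ℤ) - (fun l => F l + (Z.map fun z => pat μ z.1 z.2 l).sum : ℕ → ℕ) x -
        ((μ - x : ℕ) : ℤ) * ρ ∧
      (μ + 1 ≤ x → x < 2 * μ → 20 * (μ : ℤ) ≤
        (D x : ℤ) - (fun l => F l + (Z.map fun z => pat μ z.1 z.2 l).sum : ℕ → ℕ) x -
          ((μ - x : ℕ) : ℤ) * ρ) := by
    by_cases hx : μ ≤ x
    · have h1 := clo_r_big hm hclo hx
      have h2 := hD (x + 1) hxq
      rw [Nat.add_sub_cancel] at h2
      have h2' : (8 * (m : ℤ) ^ 2) + m * ((D (x + 1) - D x : ℕ) : ℤ) ≤ D (x + 1) := by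
        exact_mod_cast h2
      set r : ℤ := (D x : ℤ) - ((F x + (Z.map fun z => pat μ z.1 z.2 x).sum : ℕ) : ℤ) -
        ((μ - x : ℕ) : ℤ) * ρ with hr
      have h1' : (D (x + 1) : ℤ) ≤ m * r + m * ((D (x + 1) - D x : ℕ) : ℤ) := h1
      have h3 : 8 * (m : ℤ) ≤ r := by
        by_contra hcon
        push Not at hcon
        nlinarith
      refine ⟨?_, ?_⟩
      · show 3 * ((min μ x : ℕ) : ℤ) + 1 ≤ r
        rw [min_eq_left hx]
        linarith
      · intro _ h5
        show 20 * (μ : ℤ) ≤ r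
        have h6 := h20 (x + 1) (by omega)
        rw [Nat.add_sub_cancel] at h6
        have h6' : (20 * (m : ℤ) ^ 2) + m * ((D (x + 1) - D x : ℕ) : ℤ) ≤ D (x + 1) := by
          exact_mod_cast h6
        have h7 : 20 * (m : ℤ) ≤ r := by
          by_contra hcon
          push Not at hcon
          nlinarith
        linarith
    · push Not at hx
      have h1 := clo_r_zone hμm hmq hclo hx1 hx hconc
      refine ⟨?_, ?_⟩
      · rw [min_eq_right hx.le]
        have h2 : (1 : ℤ) ≤ x := by exact_mod_cast hx1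
        linarith
      · intro h5 _
        omega
  obtain ⟨b, e', heb, hclo'⟩ := clo_step hμ hμm hmq hclo hx1 key.1 key.2
  refine ⟨Z ++ e.map (fun g => (x, g)) ++ List.replicate (b - e.length) (x, min μ (x + 1)),
    ρ - b, e', ?_, ?_, ?_⟩
  · rw [List.length_append, List.length_append, List.length_map, List.length_replicate]
    push_cast
    rw [Nat.cast_sub heb]
    linarith
  · intro z hz
    rw [List.mem_append, List.mem_append] at hz
    rcases hz with (hz | hz) | hz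
    · exact hadm z hz
    · rw [List.mem_map] at hz
      obtain ⟨g, hg, rfl⟩ := hz
      obtain ⟨h1, h2, h3⟩ := hclo.e_bd g hg
      have h4 : g + 1 ≤ μ := h2.trans (min_le_left _ _)
      have h5 : g + 1 ≤ x + 1 := h2.trans (min_le_right _ _)
      exact ⟨h1, by show g ≤ μ; omega, by show g ≤ x + 1; omega, by show x < q0 + 1; omega,
        fun h6 => by
          have h7 : x + 1 = q0 + 1 := h6
          omega⟩
    · rw [List.mem_replicate] at hz
      obtain ⟨-, rfl⟩ := hz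
      exact ⟨by show 1 ≤ min μ (x + 1); omega, by show min μ (x + 1) ≤ μ; omega,
        by show min μ (x + 1) ≤ x + 1; omega, by show x < q0 + 1; omega,
        fun h6 => by
          have h7 : x + 1 = q0 + 1 := h6
          omega⟩
  · have hF : (fun l => F l + ((Z ++ e.map (fun g => (x, g)) ++
        List.replicate (b - e.length) (x, min μ (x + 1))).map fun z => pat μ z.1 z.2 l).sum) =
        fun l => (fun l => F l + (Z.map fun z => pat μ z.1 z.2 l).sum : ℕ → ℕ) l +
          (e.map fun g => pat μ x g l).sum + (b - e.length) * pat μ x (min μ (x + 1)) l := by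
      funext l
      rw [List.map_append, List.map_append, List.sum_append, List.sum_append, List.map_map,
        Close_sum_rep]
      simp only [Function.comp_def]
      ring
    rw [hF]
    exact hclo'

/-- Adapt the proof of `ShghQ.close` (descending induction on `x` from `q0` to `1`). For `μ ≤ x` the hypotheses
of `clo_step` follow from `clo_r_big` and `hD (x+1)`: `m r ≥ D (x+1) - m (D (x+1) - D x) ≥ 8 m²`, so
`r ≥ 8 m ≥ 3 μ + 1`; and `≥ 20 m²` by `h20 (x+1)` if `x < 2 μ`, so `r ≥ 20 m ≥ 20 μ`. For `x < μ` they follow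
from `clo_r_zone`. End: `clo_end` with `hD 1`. -/
theorem close {m μ q0 N : ℕ} {D F : ℕ → ℕ} (hμ : 1 ≤ μ) (hμm : μ ≤ m) (hq : 2 * m ≤ q0)
    (hD : ∀ l, l ≤ q0 → 8 * m ^ 2 + m * (D l - D (l - 1)) ≤ D l)
    (h20 : ∀ l, l ≤ 2 * m → 20 * m ^ 2 + m * (D l - D (l - 1)) ≤ D l)
    (hconc : ∀ l, l + 2 ≤ m → D l + D (l + 2) ≤ 2 * D (l + 1))
    (hle : F q0 ≤ D q0)
    (hsteep : ∀ l, l < q0 → F (l + 1) + m * F l ≤ m * F (l + 1))
    (hsupp : ∀ l, l ≤ μ → F l = 0)
    (htot : ∑ l ∈ Finset.range (q0 + 1), D l = ∑ l ∈ Finset.range (q0 + 1), F l + N * tri μ) :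
    ∃ Z : List (ℕ × ℕ), Z.length = N ∧ (∀ z ∈ Z, Adm (q0 + 1) μ z.1 z.2) ∧
      ∀ l, l ≤ q0 → F l + (Z.map fun z => pat μ z.1 z.2 l).sum = D l := by
  have hm : 1 ≤ m := by omega
  have hall : ∀ k, k < q0 → ∃ (Z : List (ℕ × ℕ)) (ρ : ℤ) (e : List ℕ),
      (Z.length : ℤ) + ρ = N ∧ (∀ z ∈ Z, Adm (q0 + 1) μ z.1 z.2) ∧
      Clo m μ q0 D (fun l => F l + (Z.map fun z => pat μ z.1 z.2 l).sum) ρ (q0 - k) e := by
    intro k
    induction k with
    | zero =>
      intro _
      obtain ⟨b, e, hclo⟩ := clo_init hμ hμm hq hle hsteep hsupp htot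
      refine ⟨List.replicate b (q0, μ), N - b, e, ?_, ?_, ?_⟩
      · rw [List.length_replicate]
        ring
      · intro z hz
        rw [List.mem_replicate] at hz
        obtain ⟨-, rfl⟩ := hz
        exact ⟨hμ, le_rfl, by show μ ≤ q0 + 1; omega, by show q0 < q0 + 1; omega, fun _ => rfl⟩
      · have hF : (fun l => F l + ((List.replicate b (q0, μ)).map
            fun z => pat μ z.1 z.2 l).sum) = fun l => F l + b * pat μ q0 μ l := by
          funext l
          rw [Close_sum_rep]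
        rw [hF, Nat.sub_zero]
        exact hclo
    | succ k ih =>
      intro hk
      have h1 := ih (by omega)
      obtain ⟨x, hx⟩ : ∃ x, q0 - (k + 1) = x := ⟨_, rfl⟩
      have hx' : q0 - k = x + 1 := by omega
      rw [hx'] at h1
      rw [hx]
      exact Close_step hμ hμm hq hD h20 hconc (by omega) (by omega) h1
  obtain ⟨Z, ρ, e, hlen, hadm, hclo⟩ := hall (q0 - 1) (by omega)
  have hq1 : q0 - (q0 - 1) = 1 := by omega
  rw [hq1] at hclo
  have hD1 := hD 1 (by omega)
  obtain ⟨rfl, hρ, h0⟩ := clo_end hμ hm (by omega) hclo (by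
    have h1 : 1 - 1 = 0 := rfl
    rw [h1] at hD1
    omega)
  refine ⟨Z ++ List.replicate ρ.toNat (0, 1), ?_, ?_, ?_⟩
  · rw [List.length_append, List.length_replicate]
    omega
  · intro z hz
    rw [List.mem_append] at hz
    rcases hz with hz | hz
    · exact hadm z hz
    · rw [List.mem_replicate] at hz
      obtain ⟨-, rfl⟩ := hz
      exact ⟨le_rfl, hμ, le_rfl, by show 0 < q0 + 1; omega, fun h6 => by
          have h7 : 0 + 1 = q0 + 1 := h6
          omega⟩
  · intro l hl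
    have hsum : ((Z ++ List.replicate ρ.toNat (0, 1)).map
        fun z : ℕ × ℕ => pat μ z.1 z.2 l).sum =
        (Z.map fun z => pat μ z.1 z.2 l).sum + ρ.toNat * (μ - l) := by
      rw [List.map_append, List.sum_append, Close_sum_rep, Close_pat01]
    rw [hsum]
    have hρ' : ((ρ.toNat : ℕ) : ℤ) = ρ := Int.toNat_of_nonneg hρ
    have hgoal : ((F l + (Z.map fun z => pat μ z.1 z.2 l).sum : ℕ) : ℤ) +
        ((μ - l : ℕ) : ℤ) * ρ = D l := by
      rcases Nat.lt_trichotomy l 1 with h | h | h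
      · have hl0 : l = 0 := by omega
        subst hl0
        rw [Nat.sub_zero]
        exact h0
      · subst h
        have h2 := hclo.col
        simp only [List.map_nil, List.sum_nil, add_zero] at h2
        exact h2
      · exact hclo.full l h hl
    have hgoal2 : ((F l + ((Z.map fun z => pat μ z.1 z.2 l).sum + ρ.toNat * (μ - l)) : ℕ) : ℤ) =
        (D l : ℤ) := by
      rw [← hgoal]
      push_cast
      rw [hρ']
      ring
    exact_mod_cast hgoal2

end ShghQG
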