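import Pool.Agent.ShghQG.Phase
import Pool.Agent.ShghQG.Close
import Pool.Agent.ShghQ.Fill3

/-!
# The last group of points (general demands)
-/

namespace ShghQG

open ShghQ

/-- Adapt the proof of `ShghQ.fill3` (second phase, group `T3`, multiplicity `μ0`): `close` with `q0 = q`,
`N = |T3|`, `F = fillOf S μ p n`. By `hdown`, `8 m² ≤ D l` for `l ≤ q`, so `hD` of `close` is `hmild`. The rest is
the same. -/
theorem fill3 {s : ℕ} (μ : Fin s → ℕ) {m μ0 L : ℕ} {D : ℕ → ℕ} (S T3 : Finset (Fin s))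
    (hd : Disjoint S T3) (hμ0 : 1 ≤ μ0) (hμ0m : μ0 ≤ m) (hT3 : ∀ i ∈ T3, μ i = μ0)
    (hS : ∀ i ∈ S, μ i ≤ m) (hmL : m ≤ L)
    (hmild : ∀ l, l < L → 8 * m ^ 2 ≤ D l → 8 * m ^ 2 + m * (D l - D (l - 1)) ≤ D l)
    (hdown : ∀ l, l + 1 < L → 8 * m ^ 2 ≤ D (l + 1) → 8 * m ^ 2 ≤ D l)
    (h20 : ∀ l, l ≤ 2 * m → 20 * m ^ 2 + m * (D l - D (l - 1)) ≤ D l)
    (hconc : ∀ l, l + 2 ≤ m → D l + D (l + 2) ≤ 2 * D (l + 1))
    (p n : Fin s → ℕ) (q : ℕ) (hA : ∀ i ∈ S, Adm L (μ i) (p i) (n i)) (hq : 2 * m ≤ q)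
    (h8 : 8 * m ^ 2 ≤ D q) (hR : Reg m L D (fillOf S μ p n) m q)
    (htot : ∑ i ∈ S ∪ T3, tri (μ i) = ∑ l ∈ Finset.range L, D l) :
    ∃ p' n', (∀ i ∈ S ∪ T3, Adm L (μ i) (p' i) (n' i)) ∧
      ∀ l, l < L → fillOf (S ∪ T3) μ p' n' l = D l := by
  classical
  have hqL := hR.q_lt
  have hmono : ∀ k, k ≤ q → 8 * m ^ 2 ≤ D (q - k) := by
    intro k
    induction k with
    | zero => intro _; exact h8
    | succ k ih =>
      intro hk
      have h2 : q - (k + 1) + 1 = q - k := by omega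
      refine hdown (q - (k + 1)) (by omega) ?_
      rw [h2]
      exact ih (by omega)
  have hmono' : ∀ l, l ≤ q → 8 * m ^ 2 ≤ D l := by
    intro l hl
    have h1 := hmono (q - l) (by omega)
    have h2 : q - (q - l) = l := by omega
    rw [h2] at h1
    exact h1
  -- the total
  have hsumF := sum_fillOf hmL S μ p n hS hA
  have hT3sum : ∑ i ∈ T3, tri (μ i) = T3.card * tri μ0 := by
    rw [Finset.sum_congr rfl fun i hi => by rw [hT3 i hi], Finset.sum_const, smul_eq_mul]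
  rw [Finset.sum_union hd, ← hsumF, hT3sum] at htot
  have hsplit : ∀ f : ℕ → ℕ, ∑ l ∈ Finset.range L, f l =
      ∑ l ∈ Finset.range (q + 1), f l + ∑ l ∈ Finset.Ico (q + 1) L, f l := fun f =>
    (Finset.sum_range_add_sum_Ico f hqL).symm
  have hIco : ∑ l ∈ Finset.Ico (q + 1) L, fillOf S μ p n l = ∑ l ∈ Finset.Ico (q + 1) L, D l := by
    refine Finset.sum_congr rfl fun l hl => ?_
    rw [Finset.mem_Ico] at hl
    exact hR.full l (by omega) hl.2
  rw [hsplit, hsplit D, hIco] at htot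
  obtain ⟨Z, hZl, hZA, hZ⟩ := close (N := T3.card) hμ0 hμ0m hq
    (fun l hl => hmild l (by omega) (hmono' l hl)) h20 hconc (hR.le q le_rfl) hR.steep
    (fun l hl => hR.supp l (by omega)) (by omega)
  let e : T3 ≃ Fin Z.length := T3.equivFin.trans (finCongr hZl.symm)
  let p' : Fin s → ℕ := fun i => if h : i ∈ T3 then (Z[(e ⟨i, h⟩).1]).1 else p i
  let n' : Fin s → ℕ := fun i => if h : i ∈ T3 then (Z[(e ⟨i, h⟩).1]).2 else n i
  have hp' : ∀ i (h : i ∈ T3), p' i = (Z[(e ⟨i, h⟩).1]).1 := fun i h => dif_pos h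
  have hn' : ∀ i (h : i ∈ T3), n' i = (Z[(e ⟨i, h⟩).1]).2 := fun i h => dif_pos h
  have hp0 : ∀ i, i ∉ T3 → p' i = p i := fun i h => dif_neg h
  have hn0 : ∀ i, i ∉ T3 → n' i = n i := fun i h => dif_neg h
  have hSn : ∀ i ∈ S, i ∉ T3 := fun i hi h => Finset.disjoint_left.1 hd hi h
  refine ⟨p', n', ?_, ?_⟩
  · intro i hi
    rcases Finset.mem_union.1 hi with h | h
    · rw [hp0 i (hSn i h), hn0 i (hSn i h)]
      exact hA i h
    · rw [hp' i h, hn' i h, hT3 i h]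
      exact Fill3_adm (hZA _ (List.getElem_mem _)) hqL
  · intro l hl
    have h1 : fillOf (S ∪ T3) μ p' n' l = fillOf S μ p n l +
        (Z.map fun z => pat μ0 z.1 z.2 l).sum := by
      unfold fillOf
      rw [Finset.sum_union hd]
      congr 1
      · refine Finset.sum_congr rfl fun i hi => ?_
        rw [hp0 i (hSn i hi), hn0 i (hSn i hi)]
      · rw [← Finset.sum_coe_sort T3, ← Fin.sum_univ_fun_getElem Z fun z => pat μ0 z.1 z.2 l]
        refine Fintype.sum_equiv e _ _ fun i => ?_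
        rw [hp' i i.2, hn' i i.2, hT3 i i.2]
    rw [h1]
    by_cases hlq : l ≤ q
    · exact hZ l hlq
    · rw [hR.full l (by omega) hl]
      have h2 : (Z.map fun z => pat μ0 z.1 z.2 l).sum = 0 := by
        apply List.sum_eq_zero
        intro x hx
        obtain ⟨z, hz, rfl⟩ := List.mem_map.1 hx
        exact Fill3_zero (hZA z hz) (by omega) (by omega)
      rw [h2, add_zero]

end ShghQG
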