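import Pool.Agent.ShghQG.Fill12
import Pool.Agent.ShghQG.Fill3

/-!
# Filling a strip exactly: all three groups
-/

namespace ShghQG

open ShghQ

/-- `fill12`, then `fill3` with `S = T1 ∪ T2`. -/
theorem fill {s : ℕ} (μ : Fin s → ℕ) {m μ0 L Dm : ℕ} {D : ℕ → ℕ} (T1 T2 T3 : Finset (Fin s))
    (h12 : Disjoint T1 T2) (h3 : Disjoint (T1 ∪ T2) T3) (hμ0 : 1 ≤ μ0) (hμ0m : μ0 ≤ m)
    (hT1 : ∀ i ∈ T1, μ i = μ0) (hT2 : ∀ i ∈ T2, 1 ≤ μ i ∧ μ i ≤ m) (hT3 : ∀ i ∈ T3, μ i = μ0)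
    (hL1 : 1 ≤ L) (hmL : m ≤ L)
    (hDm : ∀ l, l < L → D l ≤ Dm) (hmild0 : ∀ l, l < L → Mild μ0 D l)
    (hmild : ∀ l, l < L → 8 * m ^ 2 ≤ D l → 8 * m ^ 2 + m * (D l - D (l - 1)) ≤ D l)
    (hdown : ∀ l, l + 1 < L → 8 * m ^ 2 ≤ D (l + 1) → 8 * m ^ 2 ≤ D l)
    (hdeep : ∀ (q : ℕ) (F : ℕ → ℕ), Reg m L D F μ0 q →
      ∑ l ∈ Finset.range L, F l = ∑ i ∈ T1, tri (μ i) → 8 * m ^ 2 ≤ D q)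
    (h20 : ∀ l, l ≤ 2 * m → 20 * m ^ 2 + m * (D l - D (l - 1)) ≤ D l)
    (hconc : ∀ l, l + 2 ≤ m → D l + D (l + 2) ≤ 2 * D (l + 1))
    (ha2 : ∑ i ∈ T1 ∪ T2, tri (μ i) + (2 * m + 3) * Dm ≤ ∑ l ∈ Finset.range L, D l)
    (htot : ∑ i ∈ (T1 ∪ T2) ∪ T3, tri (μ i) = ∑ l ∈ Finset.range L, D l) :
    ∃ p n : Fin s → ℕ, (∀ i ∈ (T1 ∪ T2) ∪ T3, Adm L (μ i) (p i) (n i)) ∧
      ∀ l, l < L → ∑ i ∈ (T1 ∪ T2) ∪ T3, pat (μ i) (p i) (n i) l = D l := by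
  obtain ⟨p, n, q, hA, hq, h8, hR⟩ := fill12 μ T1 T2 h12 hμ0 hμ0m hT1 hT2 hL1 hmL hDm hmild0 hmild
    hdown hdeep ha2
  have hS : ∀ i ∈ T1 ∪ T2, μ i ≤ m := by
    intro i hi
    rcases Finset.mem_union.1 hi with h | h
    · rw [hT1 i h]
      exact hμ0m
    · exact (hT2 i h).2
  exact fill3 μ (T1 ∪ T2) T3 h3 hμ0 hμ0m hT3 hS hmL hmild hdown h20 hconc p n q hA hq h8 hR htot

end ShghQG
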