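import Pool.Agent.ShghQ.Sub

/-!
# Choice of the points
-/

namespace ShghQG

open ShghQ

/-- Adapt the proof of `ShghQ.exists_sub` (`S ⊆ {i ∈ U | 1 ≤ μ i}` minimal with `A ≤ Σ_{i∈S} tri (μ i)`). -/
theorem exists_sub {s : ℕ} (μ : Fin s → ℕ) (m κ A : ℕ) (U : Finset (Fin s)) (hA : 1 ≤ A)
    (hμ : ∀ i ∈ U, μ i ≤ m) (hκ : ((U.image μ).erase 0).card ≤ κ)
    (hcov : A ≤ ∑ i ∈ U, tri (μ i)) :
    ∃ (S : Finset (Fin s)) (μ0 : ℕ), S ⊆ U ∧ (∀ i ∈ S, 1 ≤ μ i) ∧ A ≤ ∑ i ∈ S, tri (μ i) ∧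
      ∑ i ∈ S, tri (μ i) < A + tri m ∧ 1 ≤ μ0 ∧ μ0 ≤ m ∧
      A ≤ κ * ((S.filter fun i => μ i = μ0).card * tri μ0) := by
  classical
  set U' : Finset (Fin s) := U.filter fun i => 1 ≤ μ i with hU'
  have hUs : ∑ i ∈ U', tri (μ i) = ∑ i ∈ U, tri (μ i) := by
    refine Finset.sum_subset (Finset.filter_subset _ _) fun i hi' hi => ?_
    have h1 : ¬ 1 ≤ μ i := fun h => hi (Finset.mem_filter.2 ⟨hi', h⟩)
    have h2 : μ i = 0 := by omega
    rw [h2]
    rfl
  set F : Finset (Finset (Fin s)) := U'.powerset.filter fun S => A ≤ ∑ i ∈ S, tri (μ i) with hF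
  have hUF : U' ∈ F := by
    rw [hF, Finset.mem_filter]
    exact ⟨Finset.mem_powerset_self _, by rw [hUs]; exact hcov⟩
  obtain ⟨S, hS, hmin⟩ := Finset.exists_min_image F Finset.card ⟨U', hUF⟩
  have hS2 := Finset.mem_filter.1 hS
  have hSU' : S ⊆ U' := Finset.mem_powerset.1 hS2.1
  have hSU : S ⊆ U := hSU'.trans (Finset.filter_subset _ _)
  have hSne : S.Nonempty := by
    rw [Finset.nonempty_iff_ne_empty]
    rintro rfl
    have := hS2.2
    rw [Finset.sum_empty] at this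
    omega
  obtain ⟨i, hi⟩ := hSne
  have hlt : ∑ i ∈ S, tri (μ i) < A + tri m := by
    have h1 : S.erase i ∉ F := fun h => by
      have h2 := hmin _ h
      rw [Finset.card_erase_of_mem hi] at h2
      have h3 : 0 < S.card := Finset.card_pos.2 ⟨i, hi⟩
      omega
    have h2 : ¬ A ≤ ∑ i ∈ S.erase i, tri (μ i) := fun h => h1 (Finset.mem_filter.2
      ⟨Finset.mem_powerset.2 ((Finset.erase_subset _ _).trans hSU'), h⟩)
    rw [← Finset.add_sum_erase S _ hi]
    have h3 := tri_mono (hμ i (hSU hi))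
    omega
  set V : Finset ℕ := (U.image μ).erase 0 with hV
  have hmap : ∀ i ∈ S, μ i ∈ V := by
    intro j hj
    have h1 := (Finset.mem_filter.1 (hSU' hj)).2
    exact Finset.mem_erase.2 ⟨by omega, Finset.mem_image_of_mem _ (hSU hj)⟩
  obtain ⟨v, hv, hmax⟩ := Finset.exists_max_image V
    (fun v => (S.filter fun i => μ i = v).card * tri v) ⟨μ i, hmap i hi⟩
  have hv2 := Finset.mem_erase.1 hv
  obtain ⟨j, hjU, hj⟩ := Finset.mem_image.1 hv2.2
  refine ⟨S, v, hSU, fun i hi => (Finset.mem_filter.1 (hSU' hi)).2, hS2.2, hlt, by omega,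
    hj ▸ hμ j hjU, ?_⟩
  calc A ≤ ∑ i ∈ S, tri (μ i) := hS2.2
    _ = ∑ v ∈ V, ∑ i ∈ S.filter (fun i => μ i = v), tri (μ i) :=
      (Finset.sum_fiberwise_of_maps_to hmap _).symm
    _ = ∑ v ∈ V, (S.filter fun i => μ i = v).card * tri v := by
      refine Finset.sum_congr rfl fun w _ => ?_
      rw [Finset.sum_congr rfl fun i hi => by rw [(Finset.mem_filter.1 hi).2], Finset.sum_const,
        smul_eq_mul]
    _ ≤ ∑ _w ∈ V, (S.filter fun i => μ i = v).card * tri v := Finset.sum_le_sum hmax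
    _ = V.card * ((S.filter fun i => μ i = v).card * tri v) := by
      rw [Finset.sum_const, smul_eq_mul]
    _ ≤ κ * ((S.filter fun i => μ i = v).card * tri v) := Nat.mul_le_mul_right _ hκ

/-- The positive values are at most `m`, so there are at most `m` of them. -/
theorem card_values_le {s : ℕ} (μ : Fin s → ℕ) (m : ℕ) (U : Finset (Fin s))
    (hμ : ∀ i ∈ U, μ i ≤ m) : ((U.image μ).erase 0).card ≤ m := by
  have h1 : (U.image μ).erase 0 ⊆ Finset.Icc 1 m := by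
    intro v hv
    obtain ⟨h1, h2⟩ := Finset.mem_erase.1 hv
    obtain ⟨i, hi, rfl⟩ := Finset.mem_image.1 h2
    exact Finset.mem_Icc.2 ⟨by omega, hμ i hi⟩
  have h2 := Finset.card_le_card h1
  rwa [Nat.card_Icc, Nat.add_sub_cancel] at h2

end ShghQG
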