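import Pool.Agent.ShghQG.Dem
import Pool.Agent.ShghQG.Fill
import Pool.Agent.ShghQG.Sub
import Pool.Agent.ShghQ.Comb

/-!
# The combinatorial theorem, case A (a large point at infinity)
-/

namespace ShghQG

open ShghQ

/-- A large point with the peak `0`. -/
theorem CombA_pat_zero (ν l : ℕ) : pat ν 0 1 l = ν - l := by
  unfold pat
  split_ifs <;> omega

/-- A large point with the peak `L - 1`. -/
theorem CombA_pat_last (ν L l : ℕ) (hl : l < L) : pat ν (L - 1) ν l = ν - (L - 1 - l) := by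
  unfold pat
  split_ifs <;> omega

theorem CombA_sur_le {m L σ : ℕ} (hσ : σ / (L - 2 * m) ≤ m) (l : ℕ) : sur m L σ l ≤ m + 1 := by
  unfold sur
  split_ifs <;> omega

/-- Adding the large points. -/
theorem CombA_assemble {s : ℕ} (μ : Fin s → ℕ) (X L : ℕ) (I J U S : Finset (Fin s)) (D : ℕ → ℕ)
    (hIJ : Disjoint I J) (hIU : Disjoint (I ∪ J) U) (hSU : S ⊆ U) (hL2 : 2 ≤ L)
    (hμL : ∀ i ∈ I ∪ J, μ i < L)
    (hD : ∀ l, l < L → X ≤ D l + load L μ I J l) (p n : Fin s → ℕ)
    (hA : ∀ i ∈ S, Adm L (μ i) (p i) (n i))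
    (hfill : ∀ l, l < L → ∑ i ∈ S, pat (μ i) (p i) (n i) l = D l) :
    ∃ (T : Finset (Fin s)) (p' n' : Fin s → ℕ), T ⊆ I ∪ J ∪ U ∧
      (∀ i ∈ T, Adm L (μ i) (p' i) (n' i)) ∧
      ∀ l, l < L → X ≤ l + ∑ i ∈ T, pat (μ i) (p' i) (n' i) l := by
  classical
  let p' : Fin s → ℕ := fun i => if i ∈ I then 0 else if i ∈ J then L - 1 else p i
  let n' : Fin s → ℕ := fun i => if i ∈ I then 1 else if i ∈ J then μ i else n i
  have hSI : ∀ i ∈ S, i ∉ I ∧ i ∉ J := by
    intro i hi
    constructor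
    · intro h
      exact Finset.disjoint_left.1 hIU (Finset.mem_union_left _ h) (hSU hi)
    · intro h
      exact Finset.disjoint_left.1 hIU (Finset.mem_union_right _ h) (hSU hi)
  have hpI : ∀ i ∈ I, p' i = 0 ∧ n' i = 1 := fun i hi => ⟨if_pos hi, if_pos hi⟩
  have hpJ : ∀ i ∈ J, p' i = L - 1 ∧ n' i = μ i := by
    intro i hi
    have h : i ∉ I := fun h => Finset.disjoint_left.1 hIJ h hi
    exact ⟨by simp only [p', if_neg h, if_pos hi], by simp only [n', if_neg h, if_pos hi]⟩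
  have hpS : ∀ i ∈ S, p' i = p i ∧ n' i = n i := by
    intro i hi
    obtain ⟨h1, h2⟩ := hSI i hi
    exact ⟨by simp only [p', if_neg h1, if_neg h2], by simp only [n', if_neg h1, if_neg h2]⟩
  refine ⟨S ∪ (I ∪ J).filter (fun i => 1 ≤ μ i), p', n', ?_, ?_, ?_⟩
  · intro i hi
    rcases Finset.mem_union.1 hi with hi | hi
    · exact Finset.mem_union_right _ (hSU hi)
    · exact Finset.mem_union_left _ (Finset.mem_filter.1 hi).1
  · intro i hi
    rcases Finset.mem_union.1 hi with hi | hi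
    · rw [(hpS i hi).1, (hpS i hi).2]
      exact hA i hi
    · obtain ⟨h1, h2⟩ := Finset.mem_filter.1 hi
      have h3 := hμL i h1
      rcases Finset.mem_union.1 h1 with h | h
      · rw [(hpI i h).1, (hpI i h).2]
        exact ⟨le_rfl, h2, by omega, by omega, fun h4 => by omega⟩
      · rw [(hpJ i h).1, (hpJ i h).2]
        exact ⟨h2, le_rfl, by omega, by omega, fun _ => rfl⟩
  · intro l hl
    have hdis : Disjoint S ((I ∪ J).filter (fun i => 1 ≤ μ i)) := by
      rw [Finset.disjoint_left]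
      intro i hi hi'
      exact Finset.disjoint_left.1 hIU (Finset.mem_filter.1 hi').1 (hSU hi)
    rw [Finset.sum_union hdis]
    have e1 : ∑ i ∈ S, pat (μ i) (p' i) (n' i) l = D l := by
      rw [← hfill l hl]
      refine Finset.sum_congr rfl fun i hi => ?_
      rw [(hpS i hi).1, (hpS i hi).2]
    have e2 : ∑ i ∈ (I ∪ J).filter (fun i => 1 ≤ μ i), pat (μ i) (p' i) (n' i) l =
        ∑ i ∈ I ∪ J, pat (μ i) (p' i) (n' i) l := by
      refine Finset.sum_subset (Finset.filter_subset _ _) fun i hi hi' => ?_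
      rw [Finset.mem_filter, not_and] at hi'
      have h1 := hi' hi
      have h2 := pat_le (μ i) (p' i) (n' i) l
      omega
    have e3 : ∑ i ∈ I ∪ J, pat (μ i) (p' i) (n' i) l =
        ∑ i ∈ I, (μ i - l) + ∑ j ∈ J, (μ j - (L - 1 - l)) := by
      rw [Finset.sum_union hIJ]
      congr 1
      · refine Finset.sum_congr rfl fun i hi => ?_
        rw [(hpI i hi).1, (hpI i hi).2, CombA_pat_zero]
      · refine Finset.sum_congr rfl fun i hi => ?_
        rw [(hpJ i hi).1, (hpJ i hi).2, CombA_pat_last _ _ _ hl]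
    rw [e1, e2, e3]
    have h1 := hD l hl
    unfold load at h1
    omega

/-- `L = X - M0`, `n = L - 1 ≥ 20 κ m`, `D0 = dem0 X L μ I J`. `load 0 = Σ_I μ`, `load (L-1) = L - 1 + Σ_J μ`, so
`X - load 0 ≥ 22 m² + m |I|` and `X - load (L - 1) = M0 + 1 - Σ_J μ ≥ 22 m²`; by `load_conc` and `Conc.min_le`
`load l + 22 m² ≤ X` for all `l < L`. `A = Σ_{l<L} D0 l`; by `sum_dem0` and `hcov`, `A ≤ Σ_U tri`. `exists_sub` gives
`S`, `μ0`; `σ = Σ_S tri - A < tri m ≤ m²`, `D = dem m X L σ μ I J`, `σ / (L - 2m) ≤ m` (`L - 2 m ≥ m`). Let `q < L` be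
a maximum of `D0` and `Dm = 2 D0 q`: `D l ≤ D0 l + m + 1 ≤ 2 D0 q`. By `Conc.area`, `2 A ≥ (L - 1) D0 q ≥ 20 κ m D0 q`.
`C` = the points of `S` with `μ i = μ0`: `κ |C| tri μ0 ≥ A ≥ 10 κ m D0 q`, so `|C| tri μ0 ≥ 10 m D0 q ≥
(2 m + 3) Dm`. `fill` with `T1 = ∅`, `T2 = S \ C`, `T3 = C` (all columns are deep: `D l ≥ D0 l ≥ 22 m²`, `mild20` with
`n = L - 1`; `Mild μ0` from `mild20`). Result: `T = S ∪ {i ∈ I ∪ J | 1 ≤ μ i}`, the points of `I` get `(0, 1)`
(`pat ν 0 1 l = ν - l`), those of `J` get `(L - 1, μ j)` (`pat ν (L-1) ν l = ν - (L - 1 - l)` for `l < L`). -/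
theorem combA {s : ℕ} (μ : Fin s → ℕ) (m κ X M0 : ℕ) (I J U : Finset (Fin s)) (hm : 1 ≤ m)
    (hκ1 : 1 ≤ κ) (hIJ : Disjoint I J) (hIU : Disjoint (I ∪ J) U) (hU : ∀ i ∈ U, μ i ≤ m)
    (hκ : ((U.image μ).erase 0).card ≤ κ) (hL : ∀ i ∈ I ∪ J, μ i + M0 < X)
    (hI : ∑ i ∈ I, (μ i + m) + 22 * m ^ 2 ≤ X) (hJ : ∑ j ∈ J, μ j + 22 * m ^ 2 ≤ M0)
    (hX : M0 + 20 * κ * m < X)
    (hcov : tri X ≤ tri M0 + ∑ i ∈ I ∪ J ∪ U, tri (μ i)) :
    ∃ (T : Finset (Fin s)) (p n : Fin s → ℕ), T ⊆ I ∪ J ∪ U ∧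
      (∀ i ∈ T, Adm (X - M0) (μ i) (p i) (n i)) ∧
      ∀ l, l < X - M0 → X ≤ l + ∑ i ∈ T, pat (μ i) (p i) (n i) l := by
  classical
  obtain ⟨L, hL'⟩ : ∃ L, L = X - M0 := ⟨_, rfl⟩
  rw [← hL']
  have hκm : m ≤ κ * m := Nat.le_mul_of_pos_left m hκ1
  have h20 : 20 * κ * m = 20 * (κ * m) := by ring
  have hLbig : 20 * (κ * m) + 1 ≤ L := by omega
  have hmm : 1 ≤ m ^ 2 := Nat.one_le_pow _ _ hm
  have hm2 : m ≤ m ^ 2 := by nlinarith
  have hμL : ∀ i ∈ I ∪ J, μ i < L := fun i hi => by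
    have := hL i hi
    omega
  have hload0 : load L μ I J 0 + 22 * m ^ 2 + m * I.card ≤ X := by
    rw [load_zero L μ I J fun j hj => by
      have := hμL j (Finset.mem_union_right _ hj)
      omega]
    rw [Finset.sum_add_distrib, Finset.sum_const, smul_eq_mul, mul_comm I.card m] at hI
    omega
  have hload1 : load L μ I J (L - 1) + 22 * m ^ 2 ≤ X := by
    rw [load_last L μ I J fun i hi => by
      have := hμL i (Finset.mem_union_left _ hi)
      omega]
    omega
  have hconc := load_conc X L μ I J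
  have hload : ∀ l, l < L → load L μ I J l + 22 * m ^ 2 ≤ X := by
    intro l hl
    have h1 : min ((X : ℤ) - load L μ I J 0) (X - load L μ I J (L - 1)) ≤
        X - load L μ I J l := hconc.min_le (show l ≤ L - 1 by omega)
    have h2 : (22 * m ^ 2 : ℤ) ≤ min ((X : ℤ) - load L μ I J 0) (X - load L μ I J (L - 1)) := by
      refine le_min ?_ ?_
      · have h3 : ((load L μ I J 0 + 22 * m ^ 2 + m * I.card : ℕ) : ℤ) ≤ X := by
          exact_mod_cast hload0
        have h4 : (0 : ℤ) ≤ (m : ℤ) * I.card := by positivity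
        push_cast at h3
        linarith
      · have h3 : ((load L μ I J (L - 1) + 22 * m ^ 2 : ℕ) : ℤ) ≤ X := by exact_mod_cast hload1
        push_cast at h3
        linarith
    have h6 : ((load L μ I J l + 22 * m ^ 2 : ℕ) : ℤ) ≤ X := by
      push_cast
      linarith
    exact_mod_cast h6
  have hloadX : ∀ l, l < L → load L μ I J l ≤ X := fun l hl => by
    have := hload l hl
    omega
  -- the area
  have hsum0 := sum_dem0 X L μ I J (by omega)
    (fun i hi => (hμL i (Finset.mem_union_left _ hi)).le)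
    (fun i hi => (hμL i (Finset.mem_union_right _ hi)).le) hloadX
  rw [show X - L = M0 by omega] at hsum0
  rw [Finset.sum_union hIU, Finset.sum_union hIJ] at hcov
  set A := ∑ l ∈ Finset.range L, dem0 X L μ I J l with hAdef
  have hA0 : 22 * m ^ 2 ≤ A := by
    have h1 := hload 0 (by omega)
    have h2 : dem0 X L μ I J 0 ≤ A :=
      Finset.single_le_sum (f := fun l => dem0 X L μ I J l) (fun _ _ => Nat.zero_le _)
        (Finset.mem_range.2 (by omega))
    unfold dem0 at h2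
    omega
  obtain ⟨S, μ0, hSU, hS1, hS2, hS3, hμ0, hμ0m, hS4⟩ := exists_sub μ m κ A U (by omega) hU hκ
    (by omega)
  have htm : tri m ≤ m ^ 2 := Comb_tri_le le_rfl
  obtain ⟨σ, hσ⟩ := Nat.exists_eq_add_of_le hS2
  have hσlt : σ < m ^ 2 := by omega
  have hσdiv : σ / (L - 2 * m) ≤ m := by
    refine Nat.div_le_of_le_mul ?_
    have h1 : m * m ≤ (L - 2 * m) * m := Nat.mul_le_mul_right m (by omega)
    have h2 : m ^ 2 = m * m := by ring
    omega
  have hsumD : ∑ l ∈ Finset.range L, dem m X L σ μ I J l = ∑ i ∈ S, tri (μ i) := by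
    unfold dem
    rw [Finset.sum_add_distrib, sum_sur m L σ (by omega), ← hAdef, hσ]
  -- the maximum
  obtain ⟨q, hq, hqmax⟩ := Finset.exists_max_image (Finset.range L)
    (fun l => dem0 X L μ I J l) ⟨0, Finset.mem_range.2 (by omega)⟩
  rw [Finset.mem_range] at hq
  have hq22 : 22 * m ^ 2 ≤ dem0 X L μ I J q := by
    have := hload q hq
    unfold dem0
    omega
  have hDmax : ∀ l, l < L → dem m X L σ μ I J l ≤ 2 * dem0 X L μ I J q := by
    intro l hl
    have h1 := hqmax l (Finset.mem_range.2 hl)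
    have h2 := CombA_sur_le hσdiv l
    unfold dem
    omega
  have harea : 10 * m * dem0 X L μ I J q ≤ (S.filter fun i => μ i = μ0).card * tri μ0 := by
    have h1 : ((L - 1 : ℕ) : ℤ) * (X - load L μ I J q) ≤
        2 * ∑ l ∈ Finset.range (L - 1 + 1), ((X : ℤ) - load L μ I J l) :=
      hconc.area (by
        have := hloadX 0 (by omega)
        have h : (load L μ I J 0 : ℤ) ≤ X := by exact_mod_cast this
        linarith) (by
        have := hloadX (L - 1) (by omega)
        have h : (load L μ I J (L - 1) : ℤ) ≤ X := by exact_mod_cast this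
        linarith) (show q ≤ L - 1 by omega)
    rw [show L - 1 + 1 = L by omega] at h1
    have h2 : ∀ l ∈ Finset.range L, (X : ℤ) - load L μ I J l = ((dem0 X L μ I J l : ℕ) : ℤ) := by
      intro l hl
      have := hloadX l (Finset.mem_range.1 hl)
      unfold dem0
      omega
    rw [Finset.sum_congr rfl h2, h2 q (Finset.mem_range.2 hq)] at h1
    have h3 : (L - 1) * dem0 X L μ I J q ≤ 2 * A := by
      rw [hAdef]
      exact_mod_cast h1
    have h4 : 20 * (κ * m) * dem0 X L μ I J q ≤ (L - 1) * dem0 X L μ I J q :=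
      Nat.mul_le_mul_right _ (by omega)
    have h5 : κ * (10 * m * dem0 X L μ I J q) ≤
        κ * ((S.filter fun i => μ i = μ0).card * tri μ0) := by
      have h6 : 2 * (κ * (10 * m * dem0 X L μ I J q)) =
          20 * (κ * m) * dem0 X L μ I J q := by ring
      omega
    exact Nat.le_of_mul_le_mul_left h5 hκ1
  set C := S.filter fun i => μ i = μ0 with hC
  have hCS : C ⊆ S := Finset.filter_subset _ _
  have hareaC : ∑ i ∈ C, tri (μ i) = C.card * tri μ0 :=
    Comb_sum_const C μ μ0 fun i hi => (Finset.mem_filter.1 hi).2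
  have hSC : ∑ i ∈ S \ C, tri (μ i) + ∑ i ∈ C, tri (μ i) = ∑ i ∈ S, tri (μ i) :=
    Finset.sum_sdiff hCS
  have hmild : ∀ l, l < L → 20 * m ^ 2 +
      m * (dem m X L σ μ I J l - dem m X L σ μ I J (l - 1)) ≤ dem m X L σ μ I J l :=
    fun l hl => mild20 μ I J hm le_rfl hσdiv hload0 hload1 (show l ≤ L - 1 by omega)
  have hunion : (∅ ∪ S \ C) ∪ C = S := by
    rw [Finset.empty_union]
    exact Finset.sdiff_union_of_subset hCS
  obtain ⟨p, n, hA, hfill⟩ := fill μ (m := m) (μ0 := μ0) (L := L) (Dm := 2 * dem0 X L μ I J q)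
    (D := dem m X L σ μ I J) ∅ (S \ C) C (Finset.disjoint_empty_left _)
    (by
      rw [Finset.empty_union]
      exact Finset.sdiff_disjoint) hμ0 hμ0m (fun i hi => absurd hi (Finset.notMem_empty i))
    (fun i hi => ⟨hS1 i (Finset.mem_sdiff.1 hi).1, hU i (hSU (Finset.mem_sdiff.1 hi).1)⟩)
    (fun i hi => (Finset.mem_filter.1 hi).2) (by omega) (by omega) hDmax
    (by
      intro l hl
      have h1 := hmild l hl
      unfold Mild
      have h2 : μ0 * μ0 ≤ m * m := Nat.mul_le_mul hμ0m hμ0m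
      have h3 : μ0 * (dem m X L σ μ I J l - dem m X L σ μ I J (l - 1)) ≤
          m * (dem m X L σ μ I J l - dem m X L σ μ I J (l - 1)) := Nat.mul_le_mul_right _ hμ0m
      have h4 : m ^ 2 = m * m := by ring
      omega)
    (by
      intro l hl _
      have h1 := hmild l hl
      omega)
    (by
      intro l hl _
      have h1 := hmild l (by omega)
      omega)
    (by
      intro q' F hR _
      have h1 := hmild q' hR.q_lt
      omega)
    (fun l hl => hmild l (by omega))
    (fun l hl => dem_conc μ I J hm hloadX (by omega) l hl)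
    (by
      rw [Finset.empty_union, hsumD, ← hSC, hareaC]
      refine Nat.add_le_add_left (le_trans ?_ harea) _
      calc (2 * m + 3) * (2 * dem0 X L μ I J q) ≤ (5 * m) * (2 * dem0 X L μ I J q) :=
            Nat.mul_le_mul_right _ (by omega)
        _ = 10 * m * dem0 X L μ I J q := by ring)
    (by rw [hunion, hsumD])
  rw [hunion] at hA hfill
  refine CombA_assemble μ X L I J U S (dem m X L σ μ I J) hIJ hIU hSU (by omega) hμL ?_ p n hA
    hfill
  intro l hl
  have := hloadX l hl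
  unfold dem dem0
  omega

end ShghQG
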