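import Pool.Agent.ShghQ.Clear

/-!
# Clearing denominators, with a condition on the support
-/

namespace ShghQG

open ShghQ MvPolynomial

/-- Adapt the proof of `ShghQ.clear`; the support does not change (or gets smaller). -/
theorem clearA {A : Type*} [CommRing A] [IsDomain A] {ι : Type*} (P : ι → Fin 2 → A) (μ : ι → ℕ)
    (W : (Fin 2 →₀ ℕ) → Prop) (h : ∀ f : MvPolynomial (Fin 2) A, (∀ e ∈ f.support, W e) →
      (∀ i, f ∈ pt (P i 0) (P i 1) ^ μ i) → f = 0)
    (f : MvPolynomial (Fin 2) (FractionRing A)) (hW : ∀ e ∈ f.support, W e)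
    (hf : ∀ i, f ∈ pt (algebraMap A (FractionRing A) (P i 0))
      (algebraMap A (FractionRing A) (P i 1)) ^ μ i) : f = 0 := by
  classical
  obtain ⟨c, hc⟩ := IsLocalization.exist_integer_multiples_of_finset (nonZeroDivisors A)
    (f.support.image fun m => f.coeff m)
  have hex : ∀ m : Fin 2 →₀ ℕ, ∃ s : A,
      algebraMap A (FractionRing A) s = algebraMap A (FractionRing A) c * f.coeff m := by
    intro m
    by_cases hm : m ∈ f.support
    · obtain ⟨s, hs⟩ := hc _ (Finset.mem_image_of_mem _ hm)
      exact ⟨s, by rw [hs, Algebra.smul_def]⟩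
    · refine ⟨0, ?_⟩
      rw [map_zero, notMem_support_iff.mp hm, mul_zero]
  choose s hs using hex
  have hinj : Function.Injective (algebraMap A (FractionRing A)) := IsFractionRing.injective _ _
  have hmap : MvPolynomial.map (algebraMap A (FractionRing A)) (∑ m ∈ f.support, monomial m (s m)) =
      C (algebraMap A (FractionRing A) c) * f := by
    rw [map_sum]
    conv_rhs => rw [f.as_sum, Finset.mul_sum]
    refine Finset.sum_congr rfl fun m _ => ?_
    rw [map_monomial, hs, C_mul_monomial]
  set g : MvPolynomial (Fin 2) A := ∑ m ∈ f.support, monomial m (s m) with hg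
  have hgW : ∀ e ∈ g.support, W e := by
    intro e he
    refine hW e ?_
    by_contra hcon
    rw [mem_support_iff] at he
    apply he
    apply hinj
    rw [← coeff_map, hmap, coeff_C_mul, notMem_support_iff.mp hcon, mul_zero, map_zero]
  have hg0 : g = 0 := by
    refine h g hgW fun i => ?_
    refine mem_pt_of_map (algebraMap A (FractionRing A)) hinj _ _ _ ?_
    rw [hmap]
    exact Ideal.mul_mem_left _ _ (hf i)
  rw [hg0, map_zero] at hmap
  have hc0 : (C (algebraMap A (FractionRing A) c) : MvPolynomial (Fin 2) (FractionRing A)) ≠ 0 := by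
    intro h0
    have h1 : algebraMap A (FractionRing A) c = 0 := C_injective _ _ (by rw [h0, map_zero])
    exact nonZeroDivisors.coe_ne_zero c (hinj (by rw [h1, map_zero]))
  exact (mul_eq_zero.1 hmap.symm).resolve_left hc0

end ShghQG
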