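import Pool.Agent.ShghQ.Colon

/-!
# The inversion `(x, y) ↦ (1 / x, y / x)`
-/

namespace ShghQG

open ShghQ MvPolynomial

section Inv

variable {F : Type*} [Field F]

/-- the transform of an exponent -/
noncomputable def Inv_T (δ : ℕ) (e : Fin 2 →₀ ℕ) : Fin 2 →₀ ℕ := ex (δ - e 0 - e 1) (e 1)

theorem Inv_T0 (δ : ℕ) (e : Fin 2 →₀ ℕ) : Inv_T δ e 0 = δ - e 0 - e 1 := by simp [Inv_T, ex]

theorem Inv_T1 (δ : ℕ) (e : Fin 2 →₀ ℕ) : Inv_T δ e 1 = e 1 := by simp [Inv_T, ex]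

/-- the transform of a polynomial -/
noncomputable def Inv_g (δ : ℕ) (f : MvPolynomial (Fin 2) F) : MvPolynomial (Fin 2) F :=
  ∑ e ∈ f.support, monomial (Inv_T δ e) (coeff e f)

theorem Inv_degree (e : Fin 2 →₀ ℕ) : e.degree = e 0 + e 1 := by
  rw [Finsupp.degree_eq_sum, Fin.sum_univ_two]

theorem Inv_deg_le {δ : ℕ} {f : MvPolynomial (Fin 2) F} (hδ : f.totalDegree ≤ δ)
    {e : Fin 2 →₀ ℕ} (he : e ∈ f.support) : e 0 + e 1 ≤ δ := by
  have h1 := le_totalDegree he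
  rw [Finsupp.sum_fintype _ _ (fun _ => rfl), Fin.sum_univ_two] at h1
  omega

theorem Inv_coeff {δ : ℕ} {f : MvPolynomial (Fin 2) F} (hδ : f.totalDegree ≤ δ)
    {e : Fin 2 →₀ ℕ} (he : e ∈ f.support) : coeff (Inv_T δ e) (Inv_g δ f) = coeff e f := by
  classical
  unfold Inv_g
  rw [coeff_sum, Finset.sum_eq_single e]
  · rw [coeff_monomial, if_pos rfl]
  · intro e' he' hne
    rw [coeff_monomial, if_neg]
    intro h
    apply hne
    have h0 := DFunLike.congr_fun h 0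
    have h1 := DFunLike.congr_fun h 1
    rw [Inv_T0, Inv_T0] at h0
    rw [Inv_T1, Inv_T1] at h1
    have h2 := Inv_deg_le hδ he
    have h3 := Inv_deg_le hδ he'
    ext i
    fin_cases i
    · change e' 0 = e 0
      omega
    · exact h1
  · intro h
    exact absurd he h

theorem Inv_support {δ : ℕ} {f : MvPolynomial (Fin 2) F} {e : Fin 2 →₀ ℕ}
    (he : e ∈ (Inv_g δ f).support) : ∃ e' ∈ f.support, Inv_T δ e' = e := by
  classical
  by_contra hcon
  push Not at hcon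
  rw [mem_support_iff] at he
  apply he
  unfold Inv_g
  rw [coeff_sum]
  refine Finset.sum_eq_zero fun e' he' => ?_
  rw [coeff_monomial, if_neg (hcon e' he')]

/-- the transform in the field of fractions -/
theorem Inv_map (δ : ℕ) (f : MvPolynomial (Fin 2) F) (hδ : ∀ e ∈ f.support, e 0 + e 1 ≤ δ)
    (u v : FractionRing (MvPolynomial (Fin 2) F)) (p q : MvPolynomial (Fin 2) F)
    (hu : algebraMap (MvPolynomial (Fin 2) F) (FractionRing (MvPolynomial (Fin 2) F)) (X 0) * u = algebraMap (MvPolynomial (Fin 2) F) (FractionRing (MvPolynomial (Fin 2) F)) p)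
    (hv : algebraMap (MvPolynomial (Fin 2) F) (FractionRing (MvPolynomial (Fin 2) F)) (X 0) * v = algebraMap (MvPolynomial (Fin 2) F) (FractionRing (MvPolynomial (Fin 2) F)) q) :
    algebraMap (MvPolynomial (Fin 2) F) (FractionRing (MvPolynomial (Fin 2) F)) (X 0) ^ δ * aeval ![u, v] f =
      algebraMap (MvPolynomial (Fin 2) F) (FractionRing (MvPolynomial (Fin 2) F))
        (∑ e ∈ f.support, C (coeff e f) * X 0 ^ (δ - e 0 - e 1) * (p ^ e 0 * q ^ e 1)) := by
  rw [aeval_def, eval₂_eq', Finset.mul_sum, map_sum]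
  refine Finset.sum_congr rfl fun e he => ?_
  have h1 : δ = (δ - e 0 - e 1) + (e 0 + e 1) := by
    have := hδ e he
    omega
  have h2 : algebraMap F (FractionRing (MvPolynomial (Fin 2) F)) (coeff e f) =
      algebraMap (MvPolynomial (Fin 2) F) (FractionRing (MvPolynomial (Fin 2) F))
        (C (coeff e f)) := by
    rw [IsScalarTower.algebraMap_apply F (MvPolynomial (Fin 2) F)
      (FractionRing (MvPolynomial (Fin 2) F))]
    rfl
  rw [Fin.prod_univ_two, map_mul, map_mul, map_mul, map_pow, map_pow, map_pow, ← hu, ← hv, h2]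
  conv_lhs => rw [h1]
  change _ * (_ * (u ^ e 0 * v ^ e 1)) = _
  rw [pow_add, pow_add, mul_pow, mul_pow]
  ring

theorem Inv_ne : algebraMap (MvPolynomial (Fin 2) F) (FractionRing (MvPolynomial (Fin 2) F))
    (X 0) ≠ 0 := by
  intro h
  have h1 := IsFractionRing.injective (MvPolynomial (Fin 2) F)
    (FractionRing (MvPolynomial (Fin 2) F)) (h.trans (map_zero _).symm)
  exact X_ne_zero (R := F) (0 : Fin 2) h1

theorem Inv_g_map (δ : ℕ) (f : MvPolynomial (Fin 2) F) (hδ : f.totalDegree ≤ δ) :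
    algebraMap (MvPolynomial (Fin 2) F) (FractionRing (MvPolynomial (Fin 2) F)) (X 0) ^ δ *
      aeval ![(algebraMap (MvPolynomial (Fin 2) F) (FractionRing (MvPolynomial (Fin 2) F)) (X 0 : MvPolynomial (Fin 2) F))⁻¹,
        (algebraMap (MvPolynomial (Fin 2) F) (FractionRing (MvPolynomial (Fin 2) F)) (X 0 : MvPolynomial (Fin 2) F))⁻¹ *
          algebraMap (MvPolynomial (Fin 2) F) (FractionRing (MvPolynomial (Fin 2) F)) (X 1)] f =
      algebraMap (MvPolynomial (Fin 2) F) (FractionRing (MvPolynomial (Fin 2) F)) (Inv_g δ f) := by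
  rw [Inv_map δ f (fun e he => Inv_deg_le hδ he) _ _ 1 (X 1)
    (by rw [mul_inv_cancel₀ Inv_ne, map_one]) (by rw [mul_inv_cancel_left₀ Inv_ne])]
  congr 1
  unfold Inv_g
  refine Finset.sum_congr rfl fun e _ => ?_
  rw [one_pow, one_mul, mul_assoc, ← monomial_zero', X_pow_eq_monomial, X_pow_eq_monomial,
    monomial_mul, monomial_mul, zero_add, mul_one, mul_one]
  rfl

/-- the transform at a point -/
theorem Inv_point {δ : ℕ} {f : MvPolynomial (Fin 2) F} (hδ : f.totalDegree ≤ δ) {a b : F} {ν : ℕ}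
    (ha : a ≠ 0) (hf : f ∈ pt a⁻¹ (b * a⁻¹) ^ ν) : Inv_g δ f ∈ pt a b ^ ν := by
  set f' := ShghE.tfShift a⁻¹ (b * a⁻¹) f with hf'
  have hdeg : f'.totalDegree ≤ δ := (Colon_shift_degree _ _ _).trans hδ
  have h1 : ShghE.tfShift (-a⁻¹) (-(b * a⁻¹)) f' = f := ShghE.tfShift_neg _ _ f
  set ξ := algebraMap (MvPolynomial (Fin 2) F) (FractionRing (MvPolynomial (Fin 2) F)) (X 0) with hξ
  set η := algebraMap (MvPolynomial (Fin 2) F) (FractionRing (MvPolynomial (Fin 2) F)) (X 1) with hη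
  have hC : ∀ c : F, algebraMap F (FractionRing (MvPolynomial (Fin 2) F)) c =
      algebraMap (MvPolynomial (Fin 2) F) (FractionRing (MvPolynomial (Fin 2) F)) (C c) := by
    intro c
    rw [IsScalarTower.algebraMap_apply F (MvPolynomial (Fin 2) F)
      (FractionRing (MvPolynomial (Fin 2) F))]
    rfl
  have h2 : aeval ![ξ⁻¹, ξ⁻¹ * η] f = aeval ![ξ⁻¹ - algebraMap F _ a⁻¹,
      ξ⁻¹ * η - algebraMap F _ (b * a⁻¹)] f' := by
    conv_lhs => rw [← h1]
    have h3 : (aeval ![ξ⁻¹, ξ⁻¹ * η] :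
        MvPolynomial (Fin 2) F →ₐ[F] FractionRing (MvPolynomial (Fin 2) F)).comp
          (ShghE.tfShift (-a⁻¹) (-(b * a⁻¹))) =
        aeval ![ξ⁻¹ - algebraMap F _ a⁻¹, ξ⁻¹ * η - algebraMap F _ (b * a⁻¹)] := by
      apply MvPolynomial.algHom_ext
      intro i
      fin_cases i
      · change aeval ![ξ⁻¹, ξ⁻¹ * η] (ShghE.tfShift (-a⁻¹) (-(b * a⁻¹)) (X 0)) =
          aeval ![ξ⁻¹ - algebraMap F _ a⁻¹, ξ⁻¹ * η - algebraMap F _ (b * a⁻¹)] (X 0)
        rw [ShghE.tfShift_X0, map_add, aeval_X, aeval_X, aeval_C, map_neg, ← sub_eq_add_neg]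
        rfl
      · change aeval ![ξ⁻¹, ξ⁻¹ * η] (ShghE.tfShift (-a⁻¹) (-(b * a⁻¹)) (X 1)) =
          aeval ![ξ⁻¹ - algebraMap F _ a⁻¹, ξ⁻¹ * η - algebraMap F _ (b * a⁻¹)] (X 1)
        rw [ShghE.tfShift_X1, map_add, aeval_X, aeval_X, aeval_C, map_neg, ← sub_eq_add_neg]
        rfl
    exact DFunLike.congr_fun h3 f'
  have h4 : algebraMap (MvPolynomial (Fin 2) F) (FractionRing (MvPolynomial (Fin 2) F)) (Inv_g δ f) =
      algebraMap (MvPolynomial (Fin 2) F) (FractionRing (MvPolynomial (Fin 2) F))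
        (∑ e ∈ f'.support, C (coeff e f') * X 0 ^ (δ - e 0 - e 1) *
          ((1 - C a⁻¹ * X 0) ^ e 0 * (X 1 - C (b * a⁻¹) * X 0) ^ e 1)) := by
    rw [← Inv_g_map δ f hδ, ← Inv_map δ f' (fun e he => Inv_deg_le hdeg he)
      (ξ⁻¹ - algebraMap F _ a⁻¹) (ξ⁻¹ * η - algebraMap F _ (b * a⁻¹))
      (1 - C a⁻¹ * X 0) (X 1 - C (b * a⁻¹) * X 0) ?_ ?_]
    · congr 1
    · rw [mul_sub, mul_inv_cancel₀ Inv_ne, map_sub, map_one, map_mul, hC, mul_comm]
    · rw [mul_sub, mul_inv_cancel_left₀ Inv_ne, hC,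
        map_sub (algebraMap (MvPolynomial (Fin 2) F) (FractionRing (MvPolynomial (Fin 2) F))) (X 1),
        map_mul (algebraMap (MvPolynomial (Fin 2) F) (FractionRing (MvPolynomial (Fin 2) F)))
          (C (b * a⁻¹)), mul_comm]
  rw [IsFractionRing.injective _ _ h4]
  have h5 : (1 - C a⁻¹ * X 0 : MvPolynomial (Fin 2) F) ∈ pt a b := by
    have h6 : (1 - C a⁻¹ * X 0 : MvPolynomial (Fin 2) F) = - C a⁻¹ * (X 0 - C a) := by
      have h7 : (C a⁻¹ * C a : MvPolynomial (Fin 2) F) = 1 := by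
        rw [← C_mul, inv_mul_cancel₀ ha, C_1]
      linear_combination (-1 : MvPolynomial (Fin 2) F) * h7
    rw [h6]
    exact Ideal.mul_mem_left _ _ (Ideal.subset_span (Or.inl rfl))
  have h6 : (X 1 - C (b * a⁻¹) * X 0 : MvPolynomial (Fin 2) F) ∈ pt a b := by
    have h8 : (X 1 - C (b * a⁻¹) * X 0 : MvPolynomial (Fin 2) F) =
        (X 1 - C b) + - C (b * a⁻¹) * (X 0 - C a) := by
      have h7 : (C (b * a⁻¹) * C a : MvPolynomial (Fin 2) F) = C b := by
        rw [← C_mul, mul_assoc, inv_mul_cancel₀ ha, mul_one]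
      linear_combination (-1 : MvPolynomial (Fin 2) F) * h7
    rw [h8]
    exact Ideal.add_mem _ (Ideal.subset_span (Or.inr rfl))
      (Ideal.mul_mem_left _ _ (Ideal.subset_span (Or.inl rfl)))
  refine Ideal.sum_mem _ fun e he => Ideal.mul_mem_left _ _ ?_
  have h9 : ν ≤ e 0 + e 1 := by
    by_contra hcon
    rw [mem_support_iff] at he
    apply he
    refine (mem_pt_iff _ _ ν f).1 hf e ?_
    rw [Inv_degree]
    omega
  refine Ideal.pow_le_pow_right h9 ?_
  rw [pow_add]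
  exact Ideal.mul_mem_mul (Ideal.pow_mem_pow h5 _) (Ideal.pow_mem_pow h6 _)

end Inv

/-- `g = x ^ δ f (1 / x, y / x)`, that is `g = Σ_e monomial (ex (δ - e 0 - e 1) (e 1)) (coeff e f)` over the support of
`f`. The exponents `e` of `f` satisfy `M0 ≤ e 0 + e 1 ≤ δ` (`mem_pt_iff` at the point `(0, 0)`), so the exponents
`(δ - e 0 - e 1, e 1)` of `g` satisfy the first claim; the exponents of `g` are different for different `e`, so
`g = 0` implies `f = 0`. Second claim: Let `f'` be the translate of `f` by `(a⁻¹, b a⁻¹)`; by `mem_pt_iff` its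
coefficients of degree `< ν` vanish, and `f = Σ_e (coeff e f') (x - a⁻¹) ^ (e 0) (y - b a⁻¹) ^ (e 1)` with
`ν ≤ e 0 + e 1 ≤ δ`. As `x (1/x - a⁻¹) = - a⁻¹ (x - a)` and `x (y/x - b a⁻¹) = (y - b) - b a⁻¹ (x - a)`,
`g = Σ_e (coeff e f') x ^ (δ - e 0 - e 1) (- a⁻¹ (x - a)) ^ (e 0) ((y - b) - b a⁻¹ (x - a)) ^ (e 1)`, and each term is
in `pt a b ^ (e 0 + e 1) ≤ pt a b ^ ν`. (The identity can be proved in the field of fractions of
`MvPolynomial (Fin 2) F`, applying the homomorphism `aeval ![1 / x, y / x]` to both expressions of `f` and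
multiplying by `x ^ δ`; the algebra map to the field of fractions is injective.) -/
theorem exists_inv {F : Type*} [Field F] (δ M0 : ℕ) (f : MvPolynomial (Fin 2) F)
    (hδ : f.totalDegree ≤ δ) (h0 : f ∈ pt (0 : F) 0 ^ M0) :
    ∃ g : MvPolynomial (Fin 2) F, (∀ e ∈ g.support, e 0 + e 1 ≤ δ ∧ e 0 + M0 ≤ δ) ∧
      (∀ (a b : F) (ν : ℕ), a ≠ 0 → f ∈ pt a⁻¹ (b * a⁻¹) ^ ν → g ∈ pt a b ^ ν) ∧
      (g = 0 → f = 0) := by
  refine ⟨Inv_g δ f, ?_, fun a b ν ha hf => Inv_point hδ ha hf, ?_⟩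
  · intro e he
    obtain ⟨e', he', rfl⟩ := Inv_support he
    rw [Inv_T0, Inv_T1]
    have h1 := Inv_deg_le hδ he'
    have h2 : M0 ≤ e' 0 + e' 1 := by
      by_contra hcon
      rw [mem_support_iff] at he'
      apply he'
      have h3 := (mem_pt_iff _ _ M0 f).1 h0 e' (by rw [Inv_degree]; omega)
      have h4 : (aeval (![X 0 + C 0, X 1 + C 0] : Fin 2 → MvPolynomial (Fin 2) F) f) = f := by
        have h5 : (aeval (![X 0 + C 0, X 1 + C 0] : Fin 2 → MvPolynomial (Fin 2) F)) =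
            AlgHom.id F (MvPolynomial (Fin 2) F) := by
          apply MvPolynomial.algHom_ext
          intro i
          fin_cases i <;> simp
        rw [h5]
        rfl
      rwa [h4] at h3
    omega
  · intro hg
    ext e
    rw [coeff_zero]
    by_contra hne
    have h1 := Inv_coeff hδ (mem_support_iff.mpr hne)
    rw [hg, coeff_zero] at h1
    exact hne h1.symm

end ShghQG
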