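import Pool.Agent.ShghQG.CovA
import Pool.Agent.ShghQG.ClearA
import Pool.Agent.ShghQG.Inv
import Pool.Agent.ShghQ.Ord
import Pool.Agent.ShghQ.Fit
import Pool.Agent.ShghQ.Alg

/-!
# The algebraic theorem, case A (a large point at infinity)
-/

namespace ShghQG

open ShghQ MvPolynomial

/-- `ShghQ.alg` with `m = Σ μ i`. -/
theorem algB {k : Type*} [Field k] [Infinite k] {s : ℕ} (μ : Fin s → ℕ) (δ μ0 : ℕ)
    (B T : Finset (Fin s)) (p n : Fin s → ℕ) (hμ0 : 1 ≤ μ0)
    (hBT : Disjoint B T) (hB : B.card = (2 * μ0 + 1) ^ 2 + 1) (hBμ : ∀ i ∈ B, μ i = μ0)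
    (hX : 2 * μ0 ^ 2 + 2 * μ0 < δ + 1)
    (hA : ∀ i ∈ T, Adm (δ + 1 - (2 * μ0 ^ 2 + 2 * μ0)) (μ i) (p i) (n i))
    (hcov : ∀ l, l < δ + 1 - (2 * μ0 ^ 2 + 2 * μ0) →
      δ + 1 ≤ l + ∑ i ∈ T, pat (μ i) (p i) (n i) l) :
    ∃ P : Fin s → Fin 2 → FractionRing (Polynomial (FractionRing (Polynomial k))),
      ∀ f : MvPolynomial (Fin 2) (FractionRing (Polynomial (FractionRing (Polynomial k)))),
        f.totalDegree ≤ δ → (∀ i, f ∈ pt (P i 0) (P i 1) ^ μ i) → f = 0 := by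
  exact alg μ (∑ i, μ i) δ μ0 (fun i => Finset.single_le_sum (fun _ _ => Nat.zero_le _)
    (Finset.mem_univ i)) B T p n hμ0 hBT hB hBμ hX hA hcov

/-- `L = δ + 1 - μ i0 ≥ 1`. `exists_ord L (Σ μ i)` gives `u` and `c`; for `i ∈ T` the exponent is `c (p i) (n i)`,
`y` an injection of `T` into `K`, `fit` gives `hfit` with `a i = pat (μ i) (p i) (n i)`; so `covA` and `clearA` (with
`W e := e 0 + e 1 ≤ δ ∧ e 0 < L`) show: a polynomial `g` over `FractionRing K[ξ]` with the support in `W` and with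
`g ∈ pt (ξ ^ c) (y i) ^ μ i` for all `i ∈ T` is zero. Put `P i0 = (0, 0)`, `P i = ((ξ ^ c)⁻¹, y i (ξ ^ c)⁻¹)` for
`i ∈ T`, arbitrary otherwise, and use `exists_inv` with `M0 = μ i0`. -/
theorem algA {K : Type*} [Field K] [Infinite K] {s : ℕ} (μ : Fin s → ℕ) (δ : ℕ) (i0 : Fin s)
    (T : Finset (Fin s)) (p n : Fin s → ℕ) (hi0 : i0 ∉ T) (h0 : μ i0 ≤ δ)
    (hA : ∀ i ∈ T, Adm (δ + 1 - μ i0) (μ i) (p i) (n i))
    (hcov : ∀ l, l < δ + 1 - μ i0 → δ + 1 ≤ l + ∑ i ∈ T, pat (μ i) (p i) (n i) l) :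
    ∃ P : Fin s → Fin 2 → FractionRing (Polynomial K),
      ∀ f : MvPolynomial (Fin 2) (FractionRing (Polynomial K)),
        f.totalDegree ≤ δ → (∀ i, f ∈ pt (P i 0) (P i 1) ^ μ i) → f = 0 := by
  classical
  set L := δ + 1 - μ i0 with hLdef
  have hL1 : 1 ≤ L := by omega
  have hμ : ∀ i, μ i ≤ ∑ i, μ i := fun i =>
    Finset.single_le_sum (fun _ _ => Nat.zero_le _) (Finset.mem_univ i)
  have hinjA : Function.Injective (algebraMap (Polynomial K) (FractionRing (Polynomial K))) :=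
    IsFractionRing.injective _ _
  let y : T → K := fun i => Infinite.natEmbedding K (i : Fin s).val
  have hy : Function.Injective y := fun i j hij =>
    Subtype.ext (Fin.ext ((Infinite.natEmbedding K).injective hij))
  obtain ⟨u, c, hu, huL, hS⟩ := exists_ord L (∑ i, μ i) hL1
  have hcov' := covA (ι := T) δ L (fun i => μ i) (fun i => c (p i) (n i)) y hy u huL
    (fun i l => pat (μ i) (p i) (n i) l)
    (fun i l₀ hl h0 => fit (hA i i.2) (hS (p i) (n i) (hA i i.2).pL (hA i i.2).one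
      ((hA i i.2).le.trans (hμ i)) (hA i i.2).lp) hl h0)
    (fun l hl => by
      have h1 : ∑ i : T, pat (μ i) (p i) (n i) l = ∑ i ∈ T, pat (μ i) (p i) (n i) l :=
        Finset.sum_coe_sort T fun i => pat (μ i) (p i) (n i) l
      rw [h1]
      exact hcov l hl)
  -- the points before the inversion
  let Q : T → Fin 2 → Polynomial K := fun i j =>
    if j = 0 then Polynomial.X ^ c (p i) (n i) else Polynomial.C (y i)
  have hQ0 : ∀ i : T, Q i 0 = Polynomial.X ^ c (p i) (n i) := fun i => if_pos rfl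
  have hQ1 : ∀ i : T, Q i 1 = Polynomial.C (y i) := fun i => if_neg (by decide)
  have hclear := clearA Q (fun i : T => μ i) (fun e => e 0 + e 1 ≤ δ ∧ e 0 < L)
    (fun f hW hf => hcov' f (by
      unfold totalDegree
      refine Finset.sup_le fun e he => ?_
      rw [Finsupp.sum_fintype _ _ (fun _ => rfl), Fin.sum_univ_two]
      exact (hW e he).1) (fun e he => (hW e he).2) (fun i => by
      have h1 := hf i
      rw [hQ0, hQ1] at h1
      exact h1))
  -- the points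
  let P : Fin s → Fin 2 → FractionRing (Polynomial K) := fun i j =>
    if h : i ∈ T then
      (if j = 0 then (algebraMap _ (FractionRing (Polynomial K)) (Q ⟨i, h⟩ 0))⁻¹
      else algebraMap _ (FractionRing (Polynomial K)) (Q ⟨i, h⟩ 1) *
        (algebraMap _ (FractionRing (Polynomial K)) (Q ⟨i, h⟩ 0))⁻¹)
    else 0
  have hP0 : ∀ i : T, P i 0 = (algebraMap _ (FractionRing (Polynomial K)) (Q i 0))⁻¹ := by
    intro i
    dsimp only [P]
    rw [dif_pos i.2, if_pos rfl]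
  have hP1 : ∀ i : T, P i 1 = algebraMap _ (FractionRing (Polynomial K)) (Q i 1) *
      (algebraMap _ (FractionRing (Polynomial K)) (Q i 0))⁻¹ := by
    intro i
    dsimp only [P]
    rw [dif_pos i.2, if_neg (by decide)]
  have hPi0 : ∀ j, P i0 j = 0 := by
    intro j
    dsimp only [P]
    rw [dif_neg hi0]
  refine ⟨P, fun f hf hfP => ?_⟩
  have h00 := hfP i0
  rw [hPi0, hPi0] at h00
  obtain ⟨g, hgW, hgP, hg0⟩ := exists_inv δ (μ i0) f hf h00
  apply hg0
  apply hclear g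
  · intro e he
    have h1 := hgW e he
    refine ⟨h1.1, ?_⟩
    omega
  · intro i
    have h1 := hfP i
    rw [hP0, hP1] at h1
    refine hgP _ _ _ ?_ h1
    rw [hQ0]
    intro h2
    have h3 := (map_eq_zero_iff _ hinjA).1 h2
    exact pow_ne_zero _ Polynomial.X_ne_zero h3

end ShghQG
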