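import Pool.Agent.ShghT.SemiB
import Pool.Agent.ShghQ.Defs

/-!
# From configurations to generic points
-/

namespace ShghQG

open ShghQ MvPolynomial

/-- The field of the configurations. -/
abbrev KK (k : Type*) [Field k] : Type _ :=
  FractionRing (Polynomial (FractionRing (Polynomial (AlgebraicClosure k))))

theorem Simple_tri_one : tri 1 = 1 := rfl

/-- Adapt the proof of `ShghQ.final`: `h1` and `h2` replace the two uses of `exists_config`. -/
theorem final_of {k : Type*} [Field k] {s : ℕ} (P : Fin s → Fin 2 → k)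
    (hP : AlgebraicIndependent (⊥ : Subfield k) (fun ij : Fin s × Fin 2 => P ij.1 ij.2))
    (δ : ℕ) (μ : Fin s → ℕ)
    (h1 : tri (δ + 1) ≤ ∑ i, tri (μ i) →
      ∃ P' : Fin s → Fin 2 → KK k, ∀ f ∈ ShghT.LS δ μ P', f = 0)
    (h2 : ∀ n : ℕ, tri (δ + 1) = ∑ i, tri (μ i) + n →
      ∃ P' : Fin (s + n) → Fin 2 → KK k,
        ∀ f ∈ ShghT.LS δ (Fin.append μ fun _ : Fin n => 1) P', f = 0) :
    (Module.finrank k (ShghT.LS δ μ P) : ℤ) =
      max 0 (((δ + 2).choose 2 : ℤ) - ∑ i, ((μ i + 1).choose 2 : ℤ)) := by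
  classical
  have htri : tri (δ + 1) = (δ + 2).choose 2 := rfl
  by_cases hcov : tri (δ + 1) ≤ ∑ i, tri (μ i)
  · obtain ⟨P', hP'⟩ := h1 hcov
    have h3 := ShghT.finrank_LS_le (F := (⊥ : Subfield k)) P hP P' δ μ
    have h4 : ShghT.LS δ μ P' = ⊥ := (Submodule.eq_bot_iff _).2 hP'
    rw [h4, finrank_bot] at h3
    have h5 : ((δ + 2).choose 2 : ℤ) ≤ ∑ i, ((μ i + 1).choose 2 : ℤ) := by
      rw [htri] at hcov
      have h6 : (δ + 2).choose 2 ≤ ∑ i, (μ i + 1).choose 2 := hcov
      exact_mod_cast h6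
    rw [max_eq_left (by linarith)]
    omega
  · rw [not_le] at hcov
    obtain ⟨n, hn⟩ : ∃ n, tri (δ + 1) = ∑ i, tri (μ i) + n :=
      ⟨_, (Nat.add_sub_cancel' hcov.le).symm⟩
    obtain ⟨P', hP'⟩ := h2 n hn
    have h3 := ShghT.finrank_LS_le (F := (⊥ : Subfield k)) P hP
      (fun i => P' (Fin.castAdd n i)) δ μ
    have h4 := ShghT.finrank_LS_le_of_cut δ μ (fun i => P' (Fin.castAdd n i)) n
      (fun i => P' (Fin.natAdd s i)) ∅ (by
        intro f hf _
        refine hP' f ?_
        rw [Fin.append_castAdd_natAdd] at hf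
        exact hf)
    have h5 := ShghT.le_finrank_LS δ μ P
    rw [Finset.card_empty, add_zero] at h4
    have h6 : (δ + 2).choose 2 = ∑ i, (μ i + 1).choose 2 + n := hn
    have h7 : Module.finrank k (ShghT.LS δ μ P) = n := by omega
    have h8 : ((δ + 2).choose 2 : ℤ) = ∑ i, ((μ i + 1).choose 2 : ℤ) + n := by
      exact_mod_cast h6
    rw [h7, h8, add_sub_cancel_left, max_eq_right (Int.natCast_nonneg n)]

/-- The number of positive values outside `S` increases at most by one if points of multiplicity one are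
added. -/
theorem card_append {s : ℕ} (μ : Fin s → ℕ) (n : ℕ) (S : Finset (Fin s)) :
    (((Finset.univ \ S.map (Fin.castAddEmb n)).image
      (Fin.append μ fun _ : Fin n => 1)).erase 0).card ≤
        (((Finset.univ \ S).image μ).erase 0).card + 1 := by
  classical
  have hsub : (((Finset.univ \ S.map (Fin.castAddEmb n)).image
      (Fin.append μ fun _ : Fin n => 1)).erase 0) ⊆
      insert 1 (((Finset.univ \ S).image μ).erase 0) := by
    intro x hx
    rw [Finset.mem_erase, Finset.mem_image] at hx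
    obtain ⟨hx0, i, hiS, hi⟩ := hx
    revert hiS hi
    refine Fin.addCases (fun i => ?_) (fun j => ?_) i
    · intro hiS hi
      rw [Fin.append_left] at hi
      refine Finset.mem_insert_of_mem (Finset.mem_erase.2 ⟨hx0, ?_⟩)
      refine Finset.mem_image.2 ⟨i, ?_, hi⟩
      rw [Finset.mem_sdiff] at hiS ⊢
      refine ⟨Finset.mem_univ i, fun h => hiS.2 ?_⟩
      exact Finset.mem_map.2 ⟨i, h, rfl⟩
    · intro _ hi
      rw [Fin.append_right] at hi
      rw [← hi]
      exact Finset.mem_insert_self _ _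
  exact (Finset.card_le_card hsub).trans (Finset.card_insert_le _ _)

end ShghQG
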