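import Pool.Agent.ShghQG.Config
import Pool.Agent.ShghQG.Simple

/-!
# The theorems for generic points
-/

namespace ShghQG

open ShghQ MvPolynomial

theorem Final_castAddEmb {s : ℕ} (n : ℕ) (i : Fin s) : Fin.castAddEmb n i = Fin.castAdd n i := rfl

theorem Final_cov {s : ℕ} (δ : ℕ) (μ : Fin s → ℕ) (n : ℕ)
    (hn : tri (δ + 1) = ∑ i, tri (μ i) + n) :
    tri (δ + 1) ≤ ∑ i, tri ((Fin.append μ fun _ : Fin n => 1) i) := by
  have h1 : tri 1 = 1 := rfl
  rw [Fin.sum_univ_add]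
  simp only [Fin.append_left, Fin.append_right, h1, Finset.sum_const,
    Finset.card_univ, Fintype.card_fin, smul_eq_mul, mul_one]
  exact hn.le

theorem Final_not_mem {s : ℕ} (n : ℕ) (S : Finset (Fin s)) (i : Fin s)
    (h : Fin.castAdd n i ∉ S.map (Fin.castAddEmb n)) : i ∉ S := by
  intro hi
  exact h (Finset.mem_map.2 ⟨i, hi, rfl⟩)

theorem Final_mem {s : ℕ} (n : ℕ) (S : Finset (Fin s)) (i : Fin (s + n))
    (h : i ∈ S.map (Fin.castAddEmb n)) : ∃ j ∈ S, i = Fin.castAdd n j := by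
  obtain ⟨j, hj, h1⟩ := Finset.mem_map.1 h
  exact ⟨j, hj, h1.symm⟩

theorem Final_sum {s : ℕ} (n : ℕ) (S : Finset (Fin s)) (μ : Fin s → ℕ) (c : ℕ) :
    ∑ i ∈ S.map (Fin.castAddEmb n), ((Fin.append μ fun _ : Fin n => 1) i + c) =
      ∑ i ∈ S, (μ i + c) := by
  rw [Finset.sum_map]
  refine Finset.sum_congr rfl fun i _ => ?_
  rw [Final_castAddEmb, Fin.append_left]

/-- `final_of`; `exists_configA` with `2 κ` instead of `κ`: for `μ` itself, and for `Fin.append μ 1` with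
`Fin.castAdd n i0`, `I.map (Fin.castAddEmb n)`, `J.map (Fin.castAddEmb n)` (`card_append` with
`S = insert i0 (I ∪ J)`). -/
theorem finalA {k : Type*} [Field k] {s : ℕ} (P : Fin s → Fin 2 → k)
    (hP : AlgebraicIndependent (⊥ : Subfield k) (fun ij : Fin s × Fin 2 => P ij.1 ij.2))
    (δ : ℕ) (μ : Fin s → ℕ) (m κ : ℕ) (i0 : Fin s) (I J : Finset (Fin s)) (hm : 1 ≤ m)
    (hκ1 : 1 ≤ κ) (hIJ : Disjoint I J)
    (hi0 : i0 ∉ I ∪ J) (hU : ∀ i, i ≠ i0 → i ∉ I ∪ J → μ i ≤ m)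
    (hκ : (((Finset.univ \ insert i0 (I ∪ J)).image μ).erase 0).card ≤ κ)
    (hL : ∀ i ∈ I ∪ J, μ i + μ i0 ≤ δ)
    (hI : ∑ i ∈ I, (μ i + m) + 22 * m ^ 2 ≤ δ + 1) (hJ : ∑ j ∈ J, μ j + 22 * m ^ 2 ≤ μ i0)
    (hδ : μ i0 + 40 * κ * m ≤ δ) :
    (Module.finrank k (ShghT.LS δ μ P) : ℤ) =
      max 0 (((δ + 2).choose 2 : ℤ) - ∑ i, ((μ i + 1).choose 2 : ℤ)) := by
  classical
  refine final_of P hP δ μ (fun hcov => ?_) (fun n hn => ?_)
  · exact exists_configA (k := AlgebraicClosure k) μ m (2 * κ) δ i0 I J hm (by omega) hIJ hi0 hU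
      (hκ.trans (by omega)) hL hI hJ (by nlinarith) hcov
  · have hmu : (I ∪ J).map (Fin.castAddEmb n) =
        I.map (Fin.castAddEmb n) ∪ J.map (Fin.castAddEmb n) := Finset.map_union _ _
    have hins : (insert i0 (I ∪ J)).map (Fin.castAddEmb n) =
        insert (Fin.castAdd n i0) (I.map (Fin.castAddEmb n) ∪ J.map (Fin.castAddEmb n)) := by
      rw [Finset.map_insert, hmu]
      rfl
    refine exists_configA (k := AlgebraicClosure k) (Fin.append μ fun _ : Fin n => 1) m (2 * κ) δ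
      (Fin.castAdd n i0) (I.map (Fin.castAddEmb n)) (J.map (Fin.castAddEmb n)) hm (by omega)
      ?_ ?_ ?_ ?_ ?_ ?_ ?_ ?_ (Final_cov δ μ n hn)
    · exact (Finset.disjoint_map _).2 hIJ
    · rw [← hmu]
      intro h
      obtain ⟨j, hj, h1⟩ := Final_mem n (I ∪ J) _ h
      have h2 : i0 = j := Fin.castAdd_injective s n h1
      exact hi0 (h2 ▸ hj)
    · intro i
      refine Fin.addCases (fun i => ?_) (fun j => ?_) i
      · intro h1 h2
        rw [Fin.append_left]
        refine hU i (fun h => h1 (by rw [h])) ?_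
        rw [← hmu] at h2
        exact Final_not_mem n (I ∪ J) i h2
      · intro _ _
        rw [Fin.append_right]
        exact hm
    · have h1 := card_append μ n (insert i0 (I ∪ J))
      rw [hins] at h1
      exact h1.trans (by omega)
    · intro i hi
      rw [← hmu] at hi
      obtain ⟨j, hj, rfl⟩ := Final_mem n (I ∪ J) i hi
      rw [Fin.append_left, Fin.append_left]
      exact hL j hj
    · rw [Final_sum]
      exact hI
    · have h1 := Final_sum n J μ 0
      simp only [add_zero] at h1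
      rw [h1, Fin.append_left]
      exact hJ
    · rw [Fin.append_left]
      nlinarith

/-- `final_of`; `exists_configB` with `2 κ` instead of `κ`. -/
theorem finalB {k : Type*} [Field k] {s : ℕ} (P : Fin s → Fin 2 → k)
    (hP : AlgebraicIndependent (⊥ : Subfield k) (fun ij : Fin s × Fin 2 => P ij.1 ij.2))
    (δ : ℕ) (μ : Fin s → ℕ) (m κ : ℕ) (I : Finset (Fin s)) (hm : 1 ≤ m) (hκ1 : 1 ≤ κ)
    (hU : ∀ i, i ∉ I → μ i ≤ m)
    (hκ : (((Finset.univ \ I).image μ).erase 0).card ≤ κ) (hI1 : ∀ i ∈ I, μ i ≤ 22 * m ^ 2)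
    (hI : ∑ i ∈ I, (μ i + m) + 22 * m ^ 2 ≤ δ + 1) (hδ : 12800 * κ * m ^ 4 ≤ δ ^ 2) :
    (Module.finrank k (ShghT.LS δ μ P) : ℤ) =
      max 0 (((δ + 2).choose 2 : ℤ) - ∑ i, ((μ i + 1).choose 2 : ℤ)) := by
  classical
  have hδ' : 6400 * (2 * κ) * m ^ 4 ≤ (δ + 1) ^ 2 := by
    calc 6400 * (2 * κ) * m ^ 4 = 12800 * κ * m ^ 4 := by ring
      _ ≤ δ ^ 2 := hδ
      _ ≤ (δ + 1) ^ 2 := Nat.pow_le_pow_left (Nat.le_succ δ) 2
  refine final_of P hP δ μ (fun hcov => ?_) (fun n hn => ?_)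
  · exact exists_configB (k := AlgebraicClosure k) μ m (2 * κ) δ I hm (by omega) hU
      (hκ.trans (by omega)) hI1 hI hδ' hcov
  · refine exists_configB (k := AlgebraicClosure k) (Fin.append μ fun _ : Fin n => 1) m (2 * κ) δ
      (I.map (Fin.castAddEmb n)) hm (by omega) ?_ ?_ ?_ ?_ hδ' (Final_cov δ μ n hn)
    · intro i
      refine Fin.addCases (fun i => ?_) (fun j => ?_) i
      · intro h2
        rw [Fin.append_left]
        exact hU i (Final_not_mem n I i h2)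
      · intro _
        rw [Fin.append_right]
        exact hm
    · exact (card_append μ n I).trans (by omega)
    · intro i hi
      obtain ⟨j, hj, rfl⟩ := Final_mem n I i hi
      rw [Fin.append_left]
      exact hI1 j hj
    · rw [Final_sum]
      exact hI

end ShghQG
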