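import Pool.Agent.ShghQ.Step

/-!
# First phase: placing one point (general demands)

Version of `ShghQ/Step.lean` without the hypothesis that the demands decrease.
-/

namespace ShghQG

open ShghQ

/-- The demand at `l` is large compared with `M * M` and with `M` times the decrease of the demands from
the column `l` to the column `l - 1` (natural subtraction; for `l = 0` there is no decrease). -/
def Mild (M : ℕ) (D : ℕ → ℕ) (l : ℕ) : Prop :=
  M * M + M * (D l - D (l - 1)) ≤ D l

theorem Step_mild {M l : ℕ} {D : ℕ → ℕ} (h : Mild M D (l + 1)) :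
    M * M + M * D (l + 1) ≤ D (l + 1) + M * D l := by
  unfold Mild at h
  rw [Nat.add_sub_cancel, Nat.mul_sub] at h
  omega

theorem Step_pred {M a b c d e : ℕ} (hM : 1 ≤ M) (h1 : b + M * a ≤ M * b) (h2 : b ≤ c)
    (h3 : e + M * c ≤ c + M * d) : M * a + e ≤ M * d := by
  obtain ⟨k, rfl⟩ := Nat.exists_eq_add_of_le' hM
  have h4 : k * b ≤ k * c := Nat.mul_le_mul_left k h2
  have h5 : (k + 1) * b = k * b + b := by ring
  have h6 : (k + 1) * c = k * c + c := by ring
  omega

theorem Step_desc {M : ℕ} (hM : 1 ≤ M) {D F : ℕ → ℕ} {q : ℕ}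
    (hst : ∀ l, l < q → F (l + 1) + M * F l ≤ M * F (l + 1)) (hq : F q ≤ D q)
    (hD : ∀ l, l ≤ q → Mild M D l) {l : ℕ} (hl : l ≤ q) : F l ≤ D l := by
  induction hl using Nat.decreasingInduction with
  | of_succ l hl ih =>
    have h1 := Step_pred hM (hst l hl) ih (Step_mild (hD (l + 1) hl))
    have h2 : M * F l ≤ M * D l := by omega
    exact Nat.le_of_mul_le_mul_left h2 hM
  | self => exact hq

/-- Adapt the proof of `ShghQ.step`. Key: `Mild M D q` gives `M * M + M * D q ≤ D q + M * D (q-1)` (both cases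
`D (q-1) ≤ D q` and `D q ≤ D (q-1)`). Cases (A), (B), (C) as there. In (B) and (C) one needs
`F (q-1) + ν ≤ D (q-1)`: `M F (q-1) ≤ M F q - F q ≤ (M-1) F q ≤ (M-1) D q` (steepness, `M ≥ 1`), so
`M (F (q-1) + ν) ≤ (M-1) D q + M * M ≤ M D (q-1)`.
The inequality `F l + pat l ≤ D l` for `l < q'`: descending induction on `l`. Let `F' = F + pat`, it is steep
with the constant `M` (`ν ≤ M`, `pat_steep`): `M F' l ≤ (M-1) F' (l+1) ≤ (M-1) D (l+1) ≤ M D l` by
`Mild M D (l+1)`. -/
theorem step {m L M q ν : ℕ} {D F : ℕ → ℕ} (h : Reg m L D F M q) (hM : M ≤ m)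
    (hν1 : 1 ≤ ν) (hν : ν ≤ M) (hq : m + 1 ≤ q) (hD : ∀ l, l ≤ q → Mild M D l) :
    ∃ p n q', Adm L ν p n ∧ q' ≤ q ∧ q ≤ q' + 1 ∧
      Reg m L D (fun l => F l + pat ν p n l) M q' := by
  have hM1 : 1 ≤ M := hν1.trans hν
  have hqL := h.q_lt
  have hFq := h.le q le_rfl
  -- steepness of the sum
  have hst : ∀ p n l, l < p → l < q → (F (l + 1) + pat ν p n (l + 1)) +
      M * (F l + pat ν p n l) ≤ M * (F (l + 1) + pat ν p n (l + 1)) := by
    intro p n l hlp hlq
    have h1 := h.steep l hlq
    have h2 := pat_steep (n := n) hν hlp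
    rw [mul_add, mul_add]
    omega
  rcases le_or_gt ν (D q - F q) with hr | hr
  · refine ⟨q, ν, q, ⟨hν1, le_rfl, by omega, hqL, fun _ => rfl⟩, le_rfl, by omega, ?_⟩
    refine ⟨hqL, ?_, ?_, ?_, ?_⟩
    · intro l hl hlL
      have h1 : pat ν q ν l = 0 := by
        unfold pat
        split_ifs <;> omega
      change F l + pat ν q ν l = D l
      rw [h1, add_zero, h.full l hl hlL]
    · intro l hl
      have h3 := pat_le ν q ν q
      exact Step_desc hM1 (F := fun l => F l + pat ν q ν l) (fun l hl => hst q ν l hl hl)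
        (by change F q + pat ν q ν q ≤ D q; omega) hD hl
    · intro l hl
      exact hst q ν l hl hl
    · intro l hl
      rw [h.supp l hl, pat_zero le_rfl (by omega)]
  · obtain ⟨k, rfl⟩ : ∃ k, q = k + 1 := ⟨q - 1, by omega⟩
    have hkey : F k + ν ≤ D k := by
      have h1 := Step_pred hM1 (h.steep k (by omega)) hFq (Step_mild (hD (k + 1) le_rfl))
      have h2 : M * ν ≤ M * M := Nat.mul_le_mul_left M hν
      have h3 : M * (F k + ν) ≤ M * D k := by rw [mul_add]; omega
      exact Nat.le_of_mul_le_mul_left h3 hM1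
    refine ⟨k, ν - (D (k + 1) - F (k + 1)), k, ⟨by omega, by omega, by omega, by omega,
      fun h' => by omega⟩, by omega, by omega, ?_⟩
    refine ⟨by omega, ?_, ?_, ?_, ?_⟩
    · intro l hl hlL
      change F l + pat ν k (ν - (D (k + 1) - F (k + 1))) l = D l
      rcases eq_or_lt_of_le (Nat.succ_le_of_lt hl) with hl' | hl'
      · subst hl'
        have h1 : pat ν k (ν - (D (k + 1) - F (k + 1))) (k + 1) = D (k + 1) - F (k + 1) := by
          unfold pat
          rw [if_neg (by omega), if_pos rfl]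
          omega
        change F (k + 1) + pat ν k (ν - (D (k + 1) - F (k + 1))) (k + 1) = D (k + 1)
        omega
      · have h1 : pat ν k (ν - (D (k + 1) - F (k + 1))) l = 0 := by
          unfold pat
          rw [if_neg (by omega), if_neg (by omega)]
          omega
        rw [h1, add_zero, h.full l hl' hlL]
    · intro l hl
      have h3 := pat_le ν k (ν - (D (k + 1) - F (k + 1))) k
      exact Step_desc hM1 (F := fun l => F l + pat ν k (ν - (D (k + 1) - F (k + 1))) l)
        (fun l hl => hst k _ l hl (by omega))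
        (by change F k + pat ν k (ν - (D (k + 1) - F (k + 1))) k ≤ D k; omega)
        (fun l hl => hD l (by omega)) hl
    · intro l hl
      exact hst k _ l hl (by omega)
    · intro l hl
      change F l + pat ν k (ν - (D (k + 1) - F (k + 1))) l = 0
      rw [h.supp l (by omega), pat_zero (by omega) (by omega)]

end ShghQG
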