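import Pool.Agent.ShghQG.Conc
import Pool.Agent.ShghQG.Step
import Pool.Agent.ShghQ.Dem

/-!
# The demands
-/

namespace ShghQG

open ShghQ

variable {s : ℕ}

/-- The part of the columns which is taken by the large points: the points of `I` have the peak in the column
`0`, those of `J` in the column `L - 1`. (The summand `l` belongs to the degree: the column `l` has `X - l`
coefficients.) -/
def load (L : ℕ) (μ : Fin s → ℕ) (I J : Finset (Fin s)) (l : ℕ) : ℕ :=
  l + ∑ i ∈ I, (μ i - l) + ∑ j ∈ J, (μ j - (L - 1 - l))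

/-- The demands without surplus. -/
def dem0 (X L : ℕ) (μ : Fin s → ℕ) (I J : Finset (Fin s)) (l : ℕ) : ℕ := X - load L μ I J l

/-- The surplus `σ` is distributed over the columns `l ≥ 2 m`. -/
def sur (m L σ l : ℕ) : ℕ :=
  if 2 * m ≤ l then σ / (L - 2 * m) + (if l - 2 * m < σ % (L - 2 * m) then 1 else 0) else 0

/-- The demands. -/
def dem (m X L σ : ℕ) (μ : Fin s → ℕ) (I J : Finset (Fin s)) (l : ℕ) : ℕ :=
  dem0 X L μ I J l + sur m L σ l

/-- `load` is convex (as `l ↦ (a - l)` and `l ↦ (a - (L - 1 - l))` are, with natural subtraction), so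
`l ↦ X - load l` is concave on `0, ..., L - 1`. -/
theorem load_conc (X L : ℕ) (μ : Fin s → ℕ) (I J : Finset (Fin s)) :
    Conc (L - 1) fun l => (X : ℤ) - load L μ I J l := by
  intro l hl
  have h1 : 2 * ∑ i ∈ I, (μ i - (l + 1)) ≤ ∑ i ∈ I, (μ i - l) + ∑ i ∈ I, (μ i - (l + 2)) := by
    rw [Finset.mul_sum, ← Finset.sum_add_distrib]
    exact Finset.sum_le_sum fun i _ => by omega
  have h2 : 2 * ∑ j ∈ J, (μ j - (L - 1 - (l + 1))) ≤
      ∑ j ∈ J, (μ j - (L - 1 - l)) + ∑ j ∈ J, (μ j - (L - 1 - (l + 2))) := by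
    rw [Finset.mul_sum, ← Finset.sum_add_distrib]
    exact Finset.sum_le_sum fun j _ => by omega
  have h3 : 2 * load L μ I J (l + 1) ≤ load L μ I J l + load L μ I J (l + 2) := by
    unfold load
    omega
  have h4 : (2 : ℤ) * load L μ I J (l + 1) ≤ load L μ I J l + load L μ I J (l + 2) := by
    exact_mod_cast h3
  show (X : ℤ) - load L μ I J l + (X - load L μ I J (l + 2)) ≤ 2 * (X - load L μ I J (l + 1))
  linarith

theorem load_zero (L : ℕ) (μ : Fin s → ℕ) (I J : Finset (Fin s)) (hJ : ∀ j ∈ J, μ j ≤ L - 1) :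
    load L μ I J 0 = ∑ i ∈ I, μ i := by
  unfold load
  have h1 : ∑ j ∈ J, (μ j - (L - 1 - 0)) = 0 :=
    Finset.sum_eq_zero fun j hj => by
      have := hJ j hj
      omega
  rw [h1]
  simp

theorem load_last (L : ℕ) (μ : Fin s → ℕ) (I J : Finset (Fin s)) (hI : ∀ i ∈ I, μ i ≤ L - 1) :
    load L μ I J (L - 1) = L - 1 + ∑ j ∈ J, μ j := by
  unfold load
  have h1 : ∑ i ∈ I, (μ i - (L - 1)) = 0 :=
    Finset.sum_eq_zero fun i hi => by
      have := hI i hi
      omega
  rw [h1]
  simp

/-- The slope of `X - load` at `0` is at most `|I|`. (`load 0 ≤ load 1 + |I|`.) -/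
theorem load_slope (L : ℕ) (μ : Fin s → ℕ) (I J : Finset (Fin s)) :
    load L μ I J 0 ≤ load L μ I J 1 + I.card := by
  unfold load
  have h1 : ∑ i ∈ I, (μ i - 0) ≤ ∑ i ∈ I, (μ i - 1) + I.card := by
    have h2 : I.card = ∑ i ∈ I, 1 := by simp
    rw [h2, ← Finset.sum_add_distrib]
    exact Finset.sum_le_sum fun i _ => by omega
  have h3 : ∑ j ∈ J, (μ j - (L - 1 - 0)) ≤ ∑ j ∈ J, (μ j - (L - 1 - 1)) :=
    Finset.sum_le_sum fun j _ => by omega
  omega

/-- `Σ_{l<L} (X - load l) = tri X - tri (X - L) - Σ_I tri - Σ_J tri`. Use `Σ_{l<L} l + tri (X - L) + ... `: for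
`L ≤ X`, `Σ_{l<L} (X - l) + tri (X - L) = tri X`; `Σ_{l<L} (a - l) = tri a` for `a ≤ L`, the same reflected. -/
theorem sum_dem0 (X L : ℕ) (μ : Fin s → ℕ) (I J : Finset (Fin s)) (hL : L ≤ X)
    (hI : ∀ i ∈ I, μ i ≤ L) (hJ : ∀ j ∈ J, μ j ≤ L) (hX : ∀ l, l < L → load L μ I J l ≤ X) :
    ∑ l ∈ Finset.range L, dem0 X L μ I J l + ∑ i ∈ I, tri (μ i) + ∑ j ∈ J, tri (μ j) +
      tri (X - L) = tri X := by
  have h1 : ∑ l ∈ Finset.range L, dem0 X L μ I J l + ∑ l ∈ Finset.range L, load L μ I J l =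
      L * X := by
    rw [← Finset.sum_add_distrib, Finset.sum_congr rfl (g := fun _ => X), Finset.sum_const,
      Finset.card_range, smul_eq_mul]
    intro l hl
    have := hX l (Finset.mem_range.1 hl)
    unfold dem0
    omega
  have h2 : ∑ l ∈ Finset.range L, load L μ I J l =
      ∑ l ∈ Finset.range L, l + ∑ i ∈ I, tri (μ i) + ∑ j ∈ J, tri (μ j) := by
    unfold load
    rw [Finset.sum_add_distrib, Finset.sum_add_distrib]
    congr 1
    · congr 1
      rw [Finset.sum_comm]
      exact Finset.sum_congr rfl fun i hi => Pat_sum (μ i) L (hI i hi)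
    · rw [Finset.sum_comm]
      refine Finset.sum_congr rfl fun j hj => ?_
      rw [← Pat_sum (μ j) L (hJ j hj), ← Finset.sum_range_reflect]
      refine Finset.sum_congr rfl fun l hl => ?_
      have := Finset.mem_range.1 hl
      have e : L - 1 - (L - 1 - l) = l := by omega
      rw [e]
  have h3 := Dem_sum X L hL
  have h4 : ∑ l ∈ Finset.range L, (X - l) + ∑ l ∈ Finset.range L, l = L * X := by
    rw [← Finset.sum_add_distrib, Finset.sum_congr rfl (g := fun _ => X), Finset.sum_const,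
      Finset.card_range, smul_eq_mul]
    intro l hl
    have := Finset.mem_range.1 hl
    omega
  omega

/-- `Σ_{l<L} sur l = σ` for `2 m < L`. -/
theorem sum_sur (m L σ : ℕ) (hL : 2 * m < L) : ∑ l ∈ Finset.range L, sur m L σ l = σ := by
  obtain ⟨N, rfl⟩ : ∃ N, L = 2 * m + N := ⟨L - 2 * m, by omega⟩
  rw [Finset.sum_range_add]
  have h1 : ∑ l ∈ Finset.range (2 * m), sur m (2 * m + N) σ l = 0 := by
    refine Finset.sum_eq_zero fun l hl => ?_
    have := Finset.mem_range.1 hl
    unfold sur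
    rw [if_neg (by omega)]
  have hN : 2 * m + N - 2 * m = N := by omega
  have h2 : ∀ k ∈ Finset.range N, sur m (2 * m + N) σ (2 * m + k) =
      σ / N + (if k < σ % N then 1 else 0) := by
    intro k _
    unfold sur
    rw [if_pos (by omega), hN, show 2 * m + k - 2 * m = k by omega]
  have h3 : (Finset.range N).filter (fun k => k < σ % N) = Finset.range (σ % N) := by
    ext k
    rw [Finset.mem_filter, Finset.mem_range, Finset.mem_range]
    have := Nat.mod_lt σ (show 0 < N by omega)
    omega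
  rw [h1, Finset.sum_congr rfl h2, Finset.sum_add_distrib, Finset.sum_const, Finset.card_range,
    smul_eq_mul, ← Finset.sum_filter, h3, Finset.sum_const, Finset.card_range, smul_eq_mul,
    mul_one, zero_add]
  exact Nat.div_add_mod σ N

/-- `sur` increases only at `l = 2 m`, by at most `σ / (L - 2 m) + 1`. -/
theorem sur_step (m L σ l : ℕ) :
    sur m L σ l ≤ sur m L σ (l - 1) + (if l = 2 * m then σ / (L - 2 * m) + 1 else 0) := by
  unfold sur
  generalize σ / (L - 2 * m) = a
  generalize σ % (L - 2 * m) = b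
  split_ifs <;> omega

/-- The demands are mild: let `n ≤ L - 1` be such that `X - load 0 ≥ 22 m² + m |I|`, `X - load n ≥ 22 m²`. Then for
`l ≤ n` one has `20 m² + m (D l - D (l-1)) ≤ D l`. (If `D0 (l-1) < D0 l` then `D0 l ≥ D0 0 ≥ 22 m² + m |I|`, and the
slope is at most `|I|`; otherwise `D0 l ≥ 22 m²` by `Conc.min_le`. The jump of the surplus costs at most
`m (m + 1) ≤ 2 m²` by `hσ`.) -/
theorem mild20 {m X L σ n : ℕ} (μ : Fin s → ℕ) (I J : Finset (Fin s)) (hm : 1 ≤ m) (hn : n ≤ L - 1)
    (hσ : σ / (L - 2 * m) ≤ m)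
    (h0 : load L μ I J 0 + 22 * m ^ 2 + m * I.card ≤ X) (h1 : load L μ I J n + 22 * m ^ 2 ≤ X)
    {l : ℕ} (hl : l ≤ n) :
    20 * m ^ 2 + m * (dem m X L σ μ I J l - dem m X L σ μ I J (l - 1)) ≤ dem m X L σ μ I J l := by
  have hconc := load_conc X L μ I J
  have hmin : min ((X : ℤ) - load L μ I J 0) (X - load L μ I J n) ≤ X - load L μ I J l :=
    (show Conc n fun l => (X : ℤ) - load L μ I J l from
      fun l hl => hconc l (hl.trans hn)).min_le hl
  have hl22 : load L μ I J l + 22 * m ^ 2 ≤ X := by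
    have h2 : (22 * m ^ 2 : ℤ) ≤ min ((X : ℤ) - load L μ I J 0) (X - load L μ I J n) := by
      refine le_min ?_ ?_
      · have h3 : ((load L μ I J 0 + 22 * m ^ 2 + m * I.card : ℕ) : ℤ) ≤ X := by exact_mod_cast h0
        have h4 : (0 : ℤ) ≤ (m : ℤ) * I.card := by positivity
        push_cast at h3
        linarith
      · have h3 : ((load L μ I J n + 22 * m ^ 2 : ℕ) : ℤ) ≤ X := by exact_mod_cast h1
        push_cast at h3
        linarith
    have h5 := h2.trans hmin
    have h6 : ((load L μ I J l + 22 * m ^ 2 : ℕ) : ℤ) ≤ X := by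
      push_cast
      linarith
    exact_mod_cast h6
  have hmm : m ≤ m ^ 2 := by nlinarith
  rcases Nat.eq_zero_or_pos l with hl0 | hl0
  · subst hl0
    rw [Nat.zero_sub, Nat.sub_self, mul_zero, add_zero]
    unfold dem dem0
    omega
  obtain ⟨k, rfl⟩ : ∃ k, l = k + 1 := ⟨l - 1, by omega⟩
  rw [Nat.add_sub_cancel]
  have hsur := sur_step m L σ (k + 1)
  rw [Nat.add_sub_cancel] at hsur
  have hsur2 : sur m L σ (k + 1) ≤ sur m L σ k + (m + 1) := by
    refine hsur.trans (Nat.add_le_add_left ?_ _)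
    split_ifs <;> omega
  have hdiff : dem m X L σ μ I J (k + 1) - dem m X L σ μ I J k ≤
      (dem0 X L μ I J (k + 1) - dem0 X L μ I J k) + (m + 1) := by
    unfold dem
    omega
  have hkey : 22 * m ^ 2 + m * (dem0 X L μ I J (k + 1) - dem0 X L μ I J k) ≤
      dem0 X L μ I J (k + 1) := by
    rcases Nat.lt_or_ge (load L μ I J (k + 1)) (load L μ I J k) with hlt | hge
    · -- the demand increases
      have hs : (X : ℤ) - load L μ I J k ≤ X - load L μ I J (k + 1) := by
        have : (load L μ I J (k + 1) : ℤ) ≤ load L μ I J k := by exact_mod_cast hlt.le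
        linarith
      have hk0 : (X : ℤ) - load L μ I J 0 ≤ X - load L μ I J k :=
        hconc.zero_le (l := k) (by omega) hs
      have hsl := hconc.slope (Nat.zero_le k) (show k + 1 ≤ L - 1 by omega)
      simp only [zero_add] at hsl
      have hI1 : (load L μ I J 0 : ℤ) ≤ load L μ I J 1 + I.card := by
        exact_mod_cast load_slope L μ I J
      have h6 : load L μ I J k ≤ load L μ I J 0 := by
        have : (load L μ I J k : ℤ) ≤ load L μ I J 0 := by linarith
        exact_mod_cast this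
      have h7 : load L μ I J k ≤ load L μ I J (k + 1) + I.card := by
        have : (load L μ I J k : ℤ) ≤ load L μ I J (k + 1) + I.card := by linarith
        exact_mod_cast this
      have h8 : dem0 X L μ I J (k + 1) - dem0 X L μ I J k ≤ I.card := by
        unfold dem0
        omega
      have h9 : m * (dem0 X L μ I J (k + 1) - dem0 X L μ I J k) ≤ m * I.card :=
        Nat.mul_le_mul_left _ h8
      unfold dem0 at h9 ⊢
      omega
    · have h6 : dem0 X L μ I J (k + 1) - dem0 X L μ I J k = 0 := by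
        unfold dem0
        omega
      rw [h6, mul_zero, add_zero]
      unfold dem0
      omega
  have h10 : m * (dem m X L σ μ I J (k + 1) - dem m X L σ μ I J k) ≤
      m * (dem0 X L μ I J (k + 1) - dem0 X L μ I J k) + (m ^ 2 + m) := by
    calc m * (dem m X L σ μ I J (k + 1) - dem m X L σ μ I J k) ≤
        m * ((dem0 X L μ I J (k + 1) - dem0 X L μ I J k) + (m + 1)) :=
          Nat.mul_le_mul_left _ hdiff
      _ = _ := by ring
  have h11 : dem0 X L μ I J (k + 1) ≤ dem m X L σ μ I J (k + 1) := Nat.le_add_right _ _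
  omega

/-- Concavity in the zone `l ≤ m` (no surplus there; `m + 2 ≤ L`). -/
theorem dem_conc {m X L σ : ℕ} (μ : Fin s → ℕ) (I J : Finset (Fin s)) (hm : 1 ≤ m)
    (hX : ∀ l, l < L → load L μ I J l ≤ X) (hL : m + 1 ≤ L) (l : ℕ) (hl : l + 2 ≤ m) :
    dem m X L σ μ I J l + dem m X L σ μ I J (l + 2) ≤ 2 * dem m X L σ μ I J (l + 1) := by
  have hs : ∀ k, k ≤ m → sur m L σ k = 0 := by
    intro k hk
    unfold sur
    rw [if_neg (by omega)]
  have h1 : (X : ℤ) - load L μ I J l + (X - load L μ I J (l + 2)) ≤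
      2 * (X - load L μ I J (l + 1)) := load_conc X L μ I J l (by omega)
  have h2 := hX l (by omega)
  have h3 := hX (l + 1) (by omega)
  have h4 := hX (l + 2) (by omega)
  have h5 : 2 * load L μ I J (l + 1) ≤ load L μ I J l + load L μ I J (l + 2) := by
    have : (2 : ℤ) * load L μ I J (l + 1) ≤ load L μ I J l + load L μ I J (l + 2) := by linarith
    exact_mod_cast this
  unfold dem dem0
  rw [hs l (by omega), hs (l + 1) (by omega), hs (l + 2) (by omega)]
  omega

end ShghQG
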