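import Pool.Agent.ShghQ.CloR

/-!
# Closing phase: lower bounds for the remaining demand of the next column (general demands)
-/

namespace ShghQG

open ShghQ

/-- Adapt the proof of `ShghQ.clo_r_big`. `r = D x - F x` (here `μ - x = 0`). `F (x+1) + E = D (x+1)` with `E ≥ 0`,
`m F x ≤ (m-1) F (x+1)`, so `m r = m D x - m F x ≥ m D x - (m-1) D (x+1) = D (x+1) - m (D (x+1) - D x)`. -/
theorem clo_r_big {m μ q0 x : ℕ} {D F : ℕ → ℕ} {ρ : ℤ} {e : List ℕ} (hm : 1 ≤ m)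
    (h : Clo m μ q0 D F ρ (x + 1) e) (hx : μ ≤ x) :
    (D (x + 1) : ℤ) ≤ m * ((D x : ℤ) - F x - ((μ - x : ℕ) : ℤ) * ρ) +
      m * ((D (x + 1) - D x : ℕ) : ℤ) := by
  have h0 : μ - x = 0 := by omega
  have h0' : μ - (x + 1) = 0 := by omega
  have hcol := h.col
  have hE := CloR_list_nonneg (min μ (x + 1)) e
  set E := (e.map fun g => ((min μ (x + 1) - g : ℕ) : ℤ)).sum with hEdef
  rw [h0'] at hcol
  rw [h0]
  have hst : ((F (x + 1) + m * F x : ℕ) : ℤ) ≤ ((m * F (x + 1) : ℕ) : ℤ) := by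
    exact_mod_cast h.steep x (by omega)
  have hsub : (D (x + 1) : ℤ) - D x ≤ ((D (x + 1) - D x : ℕ) : ℤ) := by omega
  push_cast [-Nat.cast_sub] at hst hcol ⊢
  have hm' : (1 : ℤ) ≤ m := by exact_mod_cast hm
  nlinarith [mul_nonneg (by linarith : (0 : ℤ) ≤ m - 1) hE,
    mul_nonneg (by linarith : (0 : ℤ) ≤ m) (sub_nonneg.2 hsub)]

/-- The slopes of the demands decrease. -/
theorem CloR_slope {m : ℕ} {D : ℕ → ℕ} (hconc : ∀ l, l + 2 ≤ m → D l + D (l + 2) ≤ 2 * D (l + 1))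
    (t k : ℕ) (hk : t + k + 1 ≤ m) :
    (D (t + k + 1) : ℤ) - D (t + k) ≤ (D (t + 1) : ℤ) - D t := by
  induction k with
  | zero => exact le_rfl
  | succ k ih =>
    have h1 := ih (by omega)
    have h2 : ((D (t + k) + D (t + k + 2) : ℕ) : ℤ) ≤ ((2 * D (t + k + 1) : ℕ) : ℤ) := by
      exact_mod_cast hconc (t + k) (by omega)
    push_cast at h2
    have e1 : t + (k + 1) + 1 = t + k + 2 := by ring
    have e2 : t + (k + 1) = t + k + 1 := by ring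
    rw [e1, e2]
    linarith

/-- Adapt the proof of `ShghQ.clo_r_zone`: in `Λ_z = (D (z-1) - D z) + (F z - F (z-1))` the first part is
now nondecreasing in `z` for `z ≤ μ ≤ m` (concavity `hconc`), so
`Λ_{x+1} - Λ_z ≥ (F (x+1) - F x) - (F z - F (z-1))` as before. -/
theorem clo_r_zone {m μ q0 x : ℕ} {D F : ℕ → ℕ} {ρ : ℤ} {e : List ℕ} (hμm : μ ≤ m) (hmq : m ≤ q0)
    (h : Clo m μ q0 D F ρ (x + 1) e) (hx1 : 1 ≤ x) (hx : x + 1 ≤ μ)
    (hconc : ∀ l, l + 2 ≤ m → D l + D (l + 2) ≤ 2 * D (l + 1)) :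
    4 * (x : ℤ) ≤ (D x : ℤ) - F x - ((μ - x : ℕ) : ℤ) * ρ := by
  have hE := CloR_list_nonneg (min μ (x + 1)) e
  have htot := CloR_total (hμm.trans hmq) h
  have hcol := h.col
  set E := (e.map fun g => ((min μ (x + 1) - g : ℕ) : ℤ)).sum with hEdef
  have hcast : ((μ - (x + 1) : ℕ) : ℤ) = (μ : ℤ) - (x + 1 : ℕ) := by
    rw [Nat.cast_sub hx]
  have hcast' : ((μ - x : ℕ) : ℤ) = (μ : ℤ) - x := by
    rw [Nat.cast_sub (by omega)]
  have hz := zone_identity (x + 1) (by omega) μ ρ E (fun l => (D l : ℤ) - F l)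
    (by
      rw [hcast] at hcol
      linarith)
    (by
      rw [htot]
      congr 2
      apply Finset.sum_congr rfl
      intro l hl
      rw [Finset.mem_range] at hl
      rw [Nat.cast_sub (by omega)])
  simp only [Nat.add_sub_cancel] at hz
  have hsum : ∑ t ∈ Finset.range x, ((t : ℤ) + 1) * (16 * ((x : ℤ) - t) - 2 * t) ≤
      ∑ t ∈ Finset.range x, ((t : ℤ) + 1) * (((D x : ℤ) - F x) - ((D (x + 1) : ℤ) - F (x + 1)) -
        (((D t : ℤ) - F t) - ((D (t + 1) : ℤ) - F (t + 1)))) := by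
    apply Finset.sum_le_sum
    intro t ht
    rw [Finset.mem_range] at ht
    apply mul_le_mul_of_nonneg_left _ (by positivity)
    have hsl := CloR_slope hconc t (x - t) (by omega)
    rw [show t + (x - t) + 1 = x + 1 by omega, show t + (x - t) = x by omega] at hsl
    have hc := h.conc (t + 1) (x + 1) (by omega) (by omega) hx le_rfl
    have h1 : x + 1 + μ - max (x + 1) (t + 1 + μ) = x - t := by omega
    rw [h1] at hc
    simp only [Nat.add_sub_cancel] at hc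
    have h2 : ((2 * (t + 1) - (x + 1) : ℕ) : ℤ) ≤ t := by
      have : 2 * (t + 1) - (x + 1) ≤ t := by omega
      exact_mod_cast this
    have h3 : ((x - t : ℕ) : ℤ) = (x : ℤ) - t := by rw [Nat.cast_sub ht.le]
    rw [h3] at hc
    linarith
  have hs1 := CloR_sum1 x
  rw [hcast']
  have hx' : (1 : ℤ) ≤ x := by exact_mod_cast hx1
  push_cast at hz
  have hEx : 0 ≤ E * ((x : ℤ) + 1 - 2) * ((x : ℤ) + 1 + 1) := by
    apply mul_nonneg (mul_nonneg hE (by linarith)) (by linarith)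
  have hr : ((x : ℤ) + 1) * (x + 1 + 1) * ((D x : ℤ) - F x - ((μ : ℤ) - x) * ρ) ≥
      4 * (x : ℤ) * (x + 1) * (x + 2) := by
    have h5 : ((x : ℤ) + 1) * (x + 1 + 1) * ((D x : ℤ) - F x - ((μ : ℤ) - x) * ρ) =
        ((x : ℤ) + 1) * (x + 1 + 1) * ((D x : ℤ) - F x - ((μ : ℤ) - (x + 1) + 1) * ρ) := by ring
    rw [h5, hz]
    nlinarith [mul_nonneg (by linarith : (0 : ℤ) ≤ (x : ℤ)) (by linarith : (0 : ℤ) ≤ (x : ℤ) + 1)]
  have hpos : 0 < ((x : ℤ) + 1) * (x + 1 + 1) := by positivity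
  have h6 : ((x : ℤ) + 1) * (x + 1 + 1) * (4 * (x : ℤ)) ≤
      ((x : ℤ) + 1) * (x + 1 + 1) * ((D x : ℤ) - F x - ((μ : ℤ) - x) * ρ) := by
    refine le_trans (le_of_eq ?_) hr
    ring
  exact le_of_mul_le_mul_left h6 hpos

/-- Adapt the proof of `ShghQ.clo_end`. `e = []` and `F 0 + μ ρ = D 0` as there. `ρ ≥ 0`: if `ρ < 0` then
`F 1 = D 1 - (μ - 1) ρ ≥ D 1 ≥ m (D 1 - D 0)` (natural subtraction), `m (F 1 - F 0) ≥ F 1` by steepness, so
`F 1 - F 0 ≥ D 1 - D 0` and `ρ = (D 0 - D 1) + (F 1 - F 0) ≥ 0`. -/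
theorem clo_end {m μ q0 : ℕ} {D F : ℕ → ℕ} {ρ : ℤ} {e : List ℕ} (hμ : 1 ≤ μ) (hm : 1 ≤ m)
    (hμq : μ ≤ q0) (h : Clo m μ q0 D F ρ 1 e) (hD : m * (D 1 - D 0) ≤ D 1) :
    e = [] ∧ 0 ≤ ρ ∧ (F 0 : ℤ) + μ * ρ = D 0 := by
  have he : e = [] := by
    rcases e with _ | ⟨g, t⟩
    · rfl
    · exfalso
      have h1 := h.e_bd g (by simp)
      have h2 : min μ 1 ≤ 1 := min_le_right _ _
      omega
  subst he
  have htot := CloR_total hμq h
  simp only [Finset.range_one, Finset.sum_singleton, List.map_nil, List.sum_nil, sub_zero,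
    Nat.sub_zero] at htot
  have hcol := h.col
  simp only [List.map_nil, List.sum_nil, add_zero] at hcol
  rw [Nat.cast_sub hμ] at hcol
  have hst : ((F (0 + 1) + m * F 0 : ℕ) : ℤ) ≤ ((m * F (0 + 1) : ℕ) : ℤ) := by
    exact_mod_cast h.steep 0 (by omega)
  rw [zero_add] at hst
  push_cast at hcol hst
  have hm' : (1 : ℤ) ≤ m := by exact_mod_cast hm
  have hμ' : (1 : ℤ) ≤ μ := by exact_mod_cast hμ
  have hsub : (D 1 : ℤ) - D 0 ≤ ((D 1 - D 0 : ℕ) : ℤ) := by omega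
  have hDz : (m : ℤ) * ((D 1 - D 0 : ℕ) : ℤ) ≤ D 1 := by exact_mod_cast hD
  refine ⟨rfl, ?_, by linarith⟩
  by_contra hneg
  push Not at hneg
  have h1 : (0 : ℤ) ≤ ((μ : ℤ) - 1) * (-ρ) := mul_nonneg (by linarith) (by linarith)
  have h2 : (D 1 : ℤ) ≤ F 1 := by nlinarith
  have h3 : (m : ℤ) * ((D 1 : ℤ) - D 0) ≤ m * ((F 1 : ℤ) - F 0) := by
    nlinarith [mul_nonneg (by linarith : (0 : ℤ) ≤ m) (sub_nonneg.2 hsub)]
  have h4 : (D 1 : ℤ) - D 0 ≤ (F 1 : ℤ) - F 0 := le_of_mul_le_mul_left h3 (by linarith)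
  nlinarith

end ShghQG
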