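import Pool.Agent.ShghQ.Room

/-!
# First phase: depth (general demands)
-/

namespace ShghQG

open ShghQ

/-- Adapt the proof of `ShghQ.deep`. Suppose `D q < 8 m²`. Then `D l ≤ D q < 8 m²` for `q < l < L` and
`L - q ≤ D q < 8 m²` by `hsh`. The rest is the same. -/
theorem deep {m L M q : ℕ} {D F : ℕ → ℕ} (h : Reg m L D F M q) (hm : 1 ≤ m) (hM1 : 1 ≤ M)
    (hM : M ≤ m)
    (hsh : ∀ l, l < L → D l < 8 * m ^ 2 → L ≤ D l + l ∧ ∀ l', l ≤ l' → l' < L → D l' ≤ D l)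
    (harea : 72 * m ^ 4 ≤ ∑ l ∈ Finset.range L, F l) : 8 * m ^ 2 ≤ D q := by
  by_contra hcon
  rw [not_le] at hcon
  have hqL := h.q_lt
  obtain ⟨hX, hDle⟩ := hsh q hqL hcon
  have h1 : ∑ l ∈ Finset.Ico (q + 1) L, F l ≤ (L - (q + 1)) * D q := by
    refine (Finset.sum_le_card_nsmul _ _ (D q) fun l hl => ?_).trans ?_
    · rw [Finset.mem_Ico] at hl
      rw [h.full l (by omega) hl.2]
      exact hDle l (by omega) hl.2
    · rw [Nat.card_Ico, smul_eq_mul]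
  have hLq : L - (q + 1) ≤ 8 * m ^ 2 := by omega
  have h2 : (L - (q + 1)) * D q ≤ (8 * m ^ 2) * D q := Nat.mul_le_mul_right _ hLq
  have h3 := Room_sum h hM1 q le_rfl
  have h4 : M * F q ≤ m * D q := Nat.mul_le_mul hM (h.le q le_rfl)
  rw [← Finset.sum_range_add_sum_Ico F (show q + 1 ≤ L by omega)] at harea
  have h5 : 72 * m ^ 4 ≤ (m + 8 * m ^ 2) * D q := by
    calc 72 * m ^ 4 ≤ m * D q + (8 * m ^ 2) * D q := by omega
      _ = (m + 8 * m ^ 2) * D q := by ring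
  have h6 : (m + 8 * m ^ 2) * D q < (m + 8 * m ^ 2) * (8 * m ^ 2) := by
    refine Nat.mul_lt_mul_of_pos_left hcon ?_
    positivity
  have h7 : (m + 8 * m ^ 2) * (8 * m ^ 2) ≤ 72 * m ^ 4 := by
    have h8 : m ^ 3 ≤ m ^ 4 := Nat.pow_le_pow_right hm (by norm_num)
    calc (m + 8 * m ^ 2) * (8 * m ^ 2) = 8 * m ^ 3 + 64 * m ^ 4 := by ring
      _ ≤ 8 * m ^ 4 + 64 * m ^ 4 := by omega
      _ = 72 * m ^ 4 := by ring
  omega

end ShghQG
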