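import Pool.Agent.ShghQG.Dem
import Pool.Agent.ShghQG.Room
import Pool.Agent.ShghQG.Fill
import Pool.Agent.ShghQG.Sub
import Pool.Agent.ShghQ.Comb

/-!
# The combinatorial theorem, case B (base class)
-/

namespace ShghQG

open ShghQ

/-- The arithmetic of the constants. `κ N ≥ A`, `4 A ≥ X²`, `X² ≥ 6400 κ m⁴`, `κ ≤ m` (so `X ≥ 80 κ m`):
`N ≥ X²/(4κ) ≥ 83 m⁴ + 10 m X`. (`X²/(8κ) ≥ 800 m⁴`, `X²/(8κ) ≥ 10 m X`.) -/
theorem const_arith (m κ X A N : ℕ) (hm : 1 ≤ m) (hκ1 : 1 ≤ κ) (hκ : κ ≤ m)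
    (hX : 6400 * κ * m ^ 4 ≤ X ^ 2) (hA : X ^ 2 ≤ 4 * A) (hN : A ≤ κ * N) :
    83 * m ^ 4 + 10 * m * X ≤ N := by
  have h2 : (80 * κ * m) ^ 2 ≤ X ^ 2 := by
    refine le_trans ?_ hX
    have h3 : m ^ 3 ≤ m ^ 4 := Nat.pow_le_pow_right hm (by norm_num)
    calc (80 * κ * m) ^ 2 = 6400 * κ * (κ * m ^ 2) := by ring
      _ ≤ 6400 * κ * (m * m ^ 2) :=
        Nat.mul_le_mul_left _ (Nat.mul_le_mul_right _ hκ)
      _ = 6400 * κ * m ^ 3 := by ring
      _ ≤ 6400 * κ * m ^ 4 := Nat.mul_le_mul_left _ h3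
  have h4 : 80 * κ * m ≤ X := (Nat.pow_le_pow_iff_left (by norm_num)).1 h2
  have h5 : 80 * κ * m * X ≤ X * X := Nat.mul_le_mul_right _ h4
  have h6 : κ * (8 * (83 * m ^ 4 + 10 * m * X)) ≤ κ * (8 * N) := by
    have e1 : κ * (8 * (83 * m ^ 4 + 10 * m * X)) = 664 * (κ * m ^ 4) + 80 * (κ * m * X) := by ring
    have e2 : 6400 * κ * m ^ 4 = 6400 * (κ * m ^ 4) := by ring
    have e3 : 80 * κ * m * X = 80 * (κ * m * X) := by ring
    have e4 : X ^ 2 = X * X := by ring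
    have e6 : κ * (8 * N) = 8 * (κ * N) := by ring
    rw [e2, e4] at hX
    rw [e4] at hA
    rw [e3] at h5
    rw [e1, e6]
    omega
  have h7 := Nat.le_of_mul_le_mul_left h6 hκ1
  omega

/-- The peak `0` and the defect `1`. -/
theorem CombB_pat (ν l : ℕ) : pat ν 0 1 l = ν - l := by
  unfold pat
  by_cases h0 : l = 0
  · subst h0
    simp
  · rw [if_neg (by omega)]
    split_ifs with h1
    · omega
    · rfl

theorem CombB_load (L : ℕ) {s : ℕ} (μ : Fin s → ℕ) (I : Finset (Fin s)) (l : ℕ) :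
    load L μ I ∅ l = l + ∑ i ∈ I, (μ i - l) := by
  rw [load, Finset.sum_empty, add_zero]

theorem CombB_load_big (L : ℕ) {s : ℕ} (μ : Fin s → ℕ) (I : Finset (Fin s)) {n l : ℕ}
    (hI : ∀ i ∈ I, μ i ≤ n) (hl : n ≤ l) : load L μ I ∅ l = l := by
  rw [CombB_load, Finset.sum_eq_zero fun i hi => by have := hI i hi; omega, add_zero]

theorem CombB_load_small (L : ℕ) {s : ℕ} (μ : Fin s → ℕ) (I : Finset (Fin s)) (l : ℕ) :
    load L μ I ∅ l ≤ l + ∑ i ∈ I, μ i := by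
  rw [CombB_load]
  exact Nat.add_le_add_left (Finset.sum_le_sum fun i _ => Nat.sub_le _ _) _

/-- The area of the large points. -/
theorem CombB_area {s : ℕ} (μ : Fin s → ℕ) (I : Finset (Fin s)) {n : ℕ} (hI : ∀ i ∈ I, μ i ≤ n) :
    2 * ∑ i ∈ I, tri (μ i) ≤ (n + 1) * ∑ i ∈ I, μ i := by
  rw [Finset.mul_sum, Finset.mul_sum]
  refine Finset.sum_le_sum fun i hi => ?_
  rw [two_mul_tri, mul_comm]
  exact Nat.mul_le_mul_right _ (Nat.succ_le_succ (hI i hi))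

/-- Adapt the proof of `ShghQ.comb`. `κ0` = number of positive values of `μ` on `U`. `X ≥ 80 m²`.
`A = tri X - Σ_I tri (μ i)`; `Σ_I tri (μ i) ≤ (22 m² + 1)/2 Σ_I μ i ≤ (23/2) m² X`, so `4 A ≥ 2 X² - 46 m² X ≥ X²`.
`exists_sub` (with `κ0`, `A`) gives `S`, `μ0`; `C` = the points of `S` with `μ i = μ0`, `const_arith`:
`|C| tri μ0 ≥ 83 m⁴ + 10 m X` (`κ0 ≥ 1`, as `A ≥ 1`). `X' = 2 μ0² + 2 μ0 ≤ 4 m²`, `tri X' = ((2μ0+1)²+1) tri μ0 ≤ 10 m⁴`,
`L = X - X'`, `σ = Σ_S tri - A < tri m ≤ m²`, `D = dem m X L σ μ I ∅` (`σ / (L - 2m) = 0`), `Dm = X + 1`.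
`B ⊆ C` with `|B| = (2μ0+1)²+1`, `T1 ⊆ C \ B` with area in `[72 m⁴, 73 m⁴]`, `T2 = S \ C`, `T3 = C \ (B ∪ T1)`.
Deep columns: for `l ≥ 22 m²` all terms `μ i - l` vanish, `D0 l = X - l`, and for `l ≥ 22 m²` there is no surplus
(`2 m + σ ≤ 22 m²`), so `D l = X - l`. For `l ≤ 22 m²`: `mild20` with `n = 22 m²` (`load n = n`,
`X - n ≥ 22 m²`): `D l ≥ 20 m²`. So `D l < 8 m²` implies `l ≥ 22 m²`, hence `hsh` of `deep`. `Mild μ0 D l`: for
`l ≤ 22 m²` by `mild20`, for `l > 22 m²`: `D l = X - l ≥ X' + 1 ≥ μ0²` and `D l ≤ D (l-1)`. `fill`; finally add the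
points of `I` with `1 ≤ μ i`, with `(0, 1)` (`pat ν 0 1 l = ν - l`). -/
theorem combB {s : ℕ} (μ : Fin s → ℕ) (m κ X : ℕ) (I U : Finset (Fin s)) (hm : 1 ≤ m)
    (hIU : Disjoint I U) (hU : ∀ i ∈ U, μ i ≤ m)
    (hκ : ((U.image μ).erase 0).card ≤ κ) (hI1 : ∀ i ∈ I, μ i ≤ 22 * m ^ 2)
    (hI : ∑ i ∈ I, (μ i + m) + 22 * m ^ 2 ≤ X) (hκ1 : 1 ≤ κ)
    (hX : 6400 * κ * m ^ 4 ≤ X ^ 2)
    (hcov : tri X ≤ ∑ i ∈ I ∪ U, tri (μ i)) :
    ∃ (μ0 : ℕ) (B T : Finset (Fin s)) (p n : Fin s → ℕ), 1 ≤ μ0 ∧ μ0 ≤ m ∧ Disjoint B T ∧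
      B.card = (2 * μ0 + 1) ^ 2 + 1 ∧ (∀ i ∈ B, μ i = μ0) ∧ 2 * μ0 ^ 2 + 2 * μ0 < X ∧
      T ⊆ I ∪ U ∧ (∀ i ∈ T, Adm (X - (2 * μ0 ^ 2 + 2 * μ0)) (μ i) (p i) (n i)) ∧
      ∀ l, l < X - (2 * μ0 ^ 2 + 2 * μ0) → X ≤ l + ∑ i ∈ T, pat (μ i) (p i) (n i) l := by
  classical
  have hmm : 1 ≤ m ^ 2 := Nat.one_le_pow _ _ hm
  have hm2 : m ≤ m ^ 2 := by nlinarith
  have hm4 : m ^ 2 * m ^ 2 = m ^ 4 := by ring
  have hX80 : 80 * m ^ 2 ≤ X := by
    by_contra h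
    push Not at h
    have h1 : 6400 * m ^ 4 ≤ X ^ 2 := by
      calc 6400 * m ^ 4 = 6400 * 1 * m ^ 4 := by ring
        _ ≤ 6400 * κ * m ^ 4 := Nat.mul_le_mul_right _ (Nat.mul_le_mul_left _ hκ1)
        _ ≤ X ^ 2 := hX
    have h2 : X ^ 2 < (80 * m ^ 2) ^ 2 := Nat.pow_lt_pow_left h (by norm_num)
    have h3 : (80 * m ^ 2) ^ 2 = 6400 * m ^ 4 := by ring
    omega
  -- the large points
  have hIsum : ∑ i ∈ I, (μ i + m) = ∑ i ∈ I, μ i + m * I.card := by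
    rw [Finset.sum_add_distrib, Finset.sum_const, smul_eq_mul, mul_comm I.card]
  have hareaI := CombB_area μ I hI1
  set aI := ∑ i ∈ I, tri (μ i) with haI
  set sI := ∑ i ∈ I, μ i with hsI
  have hsIX : sI + 22 * m ^ 2 ≤ X := by omega
  have htriX := two_mul_tri X
  have hArea1 : 2 * aI ≤ 23 * m ^ 2 * X := by
    calc 2 * aI ≤ (22 * m ^ 2 + 1) * sI := hareaI
      _ ≤ (23 * m ^ 2) * X := Nat.mul_le_mul (by omega) (by omega)
  have hmX : 80 * (m ^ 2 * X) ≤ X * X := by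
    rw [← mul_assoc]
    exact Nat.mul_le_mul_right _ hX80
  have e1 : 23 * m ^ 2 * X = 23 * (m ^ 2 * X) := by ring
  have e2 : X ^ 2 = X * X := by ring
  have e3 : X * (X + 1) = X * X + X := by ring
  rw [e1] at hArea1
  rw [e3] at htriX
  obtain ⟨A, hA⟩ : ∃ A, tri X = aI + A := Nat.exists_eq_add_of_le (by omega)
  have hA4 : X ^ 2 ≤ 4 * A := by
    rw [e2]
    omega
  have hA1 : 1 ≤ A := by
    have : 1 ≤ X * X := by
      have : 1 ≤ X := by omega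
      nlinarith
    omega
  have hcovU : A ≤ ∑ i ∈ U, tri (μ i) := by
    rw [Finset.sum_union hIU] at hcov
    omega
  -- the choice of the points
  set κ0 := ((U.image μ).erase 0).card with hκ0
  have hκ0m : κ0 ≤ m := card_values_le μ m U hU
  obtain ⟨S, μ0, hSU, hS1, hS2, hS3, hμ0, hμ0m, hS4⟩ := exists_sub μ m κ0 A U hA1 hU le_rfl hcovU
  have hκ01 : 1 ≤ κ0 := by
    by_contra h
    have h0 : κ0 = 0 := by omega
    rw [h0, zero_mul] at hS4
    omega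
  have hX' : 6400 * κ0 * m ^ 4 ≤ X ^ 2 :=
    (Nat.mul_le_mul_right _ (Nat.mul_le_mul_left _ hκ)).trans hX
  set N0 := (S.filter fun i => μ i = μ0).card with hN0
  have harith := const_arith m κ0 X A (N0 * tri μ0) hm hκ01 hκ0m hX' hA4 hS4
  set t0 := tri μ0 with ht0
  have ht0pos : 1 ≤ t0 := Comb_tri_pos hμ0
  have ht0le : t0 ≤ m ^ 2 := Comb_tri_le hμ0m
  have htm : tri m ≤ m ^ 2 := Comb_tri_le le_rfl
  have hX'le : 2 * μ0 ^ 2 + 2 * μ0 ≤ 4 * m ^ 2 := by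
    have h1 : μ0 ^ 2 ≤ m ^ 2 := Nat.pow_le_pow_left hμ0m 2
    have h2 : μ0 ≤ m ^ 2 := hμ0m.trans hm2
    omega
  have hb0 : (2 * μ0 + 1) ^ 2 + 1 ≤ 10 * m ^ 2 := by
    have h1 : 2 * μ0 + 1 ≤ 3 * m := by omega
    have h2 : (2 * μ0 + 1) ^ 2 ≤ (3 * m) ^ 2 := Nat.pow_le_pow_left h1 2
    have h3 : (3 * m) ^ 2 = 9 * m ^ 2 := by ring
    omega
  set b0 := (2 * μ0 + 1) ^ 2 + 1 with hb0def
  have hb0t : b0 * t0 ≤ 10 * m ^ 4 := by
    calc b0 * t0 ≤ 10 * m ^ 2 * m ^ 2 := Nat.mul_le_mul hb0 ht0le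
      _ = 10 * m ^ 4 := by ring
  have htrib : tri (2 * μ0 ^ 2 + 2 * μ0) = b0 * t0 := tri_base μ0
  set a1 := 72 * m ^ 4 / t0 + 1 with ha1
  have ha1lo : 72 * m ^ 4 ≤ a1 * t0 := by
    rw [ha1, add_mul, one_mul]
    have := Nat.div_add_mod (72 * m ^ 4) t0
    have h2 := Nat.mod_lt (72 * m ^ 4) (show 0 < t0 from ht0pos)
    nlinarith
  have ha1hi : a1 * t0 ≤ 73 * m ^ 4 := by
    rw [ha1, add_mul, one_mul]
    have h1 := Nat.div_mul_le_self (72 * m ^ 4) t0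
    have h2 : m ^ 2 ≤ m ^ 4 := Nat.pow_le_pow_right hm (by norm_num)
    omega
  have hcard : b0 + a1 ≤ N0 := by
    by_contra h
    push Not at h
    have h2 : N0 * t0 < (b0 + a1) * t0 := Nat.mul_lt_mul_of_pos_right h ht0pos
    rw [add_mul] at h2
    have h3 : 0 ≤ 10 * m * X := Nat.zero_le _
    omega
  obtain ⟨B, T1, T2, T3, hBc, hT1c, hBμ, hT1μ, hT3μ, hT3c, h12, h123, hBT, hunion⟩ :=
    Comb_partition S μ μ0 b0 a1 hcard
  -- areas
  have hareaB : ∑ i ∈ B, tri (μ i) = b0 * t0 := by rw [Comb_sum_const B μ μ0 hBμ, hBc]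
  have harea1 : ∑ i ∈ T1, tri (μ i) = a1 * t0 := by rw [Comb_sum_const T1 μ μ0 hT1μ, hT1c]
  have harea3 : ∑ i ∈ T3, tri (μ i) = T3.card * t0 := Comb_sum_const T3 μ μ0 hT3μ
  have hareaS : ∑ i ∈ B, tri (μ i) + ∑ i ∈ T1 ∪ T2 ∪ T3, tri (μ i) = ∑ i ∈ S, tri (μ i) := by
    rw [← Finset.sum_union hBT, hunion]
  have harea123 : ∑ i ∈ T1 ∪ T2 ∪ T3, tri (μ i) =
      ∑ i ∈ T1 ∪ T2, tri (μ i) + ∑ i ∈ T3, tri (μ i) := Finset.sum_union h123
  have hT3big : 10 * m * X ≤ T3.card * t0 := by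
    have h1 : T3.card * t0 + (b0 + a1) * t0 = N0 * t0 := by rw [← add_mul, hT3c]
    rw [add_mul] at h1
    omega
  obtain ⟨σ, hσ⟩ := Nat.exists_eq_add_of_le hS2
  have hσlt : σ < m ^ 2 := by omega
  set L := X - (2 * μ0 ^ 2 + 2 * μ0) with hL
  have hXL : X - L = 2 * μ0 ^ 2 + 2 * μ0 := by omega
  have hL76 : 76 * m ^ 2 ≤ L := by omega
  have hσdiv : σ / (L - 2 * m) = 0 := Nat.div_eq_of_lt (by omega)
  have hσmod : σ % (L - 2 * m) = σ := Nat.mod_eq_of_lt (by omega)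
  have hsur : ∀ l, sur m L σ l ≤ 1 := by
    intro l
    unfold sur
    rw [hσdiv]
    split_ifs <;> omega
  have hsur0 : ∀ l, 22 * m ^ 2 ≤ l → sur m L σ l = 0 := by
    intro l hl
    unfold sur
    rw [hσdiv, hσmod]
    rw [if_pos (by omega), if_neg (by omega)]
  -- the loads
  have hloadX : ∀ l, l < L → load L μ I ∅ l ≤ X := by
    intro l hl
    rcases Nat.lt_or_ge l (22 * m ^ 2) with h | h
    · have h1 := CombB_load_small L μ I l
      omega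
    · rw [CombB_load_big L μ I hI1 h]
      omega
  have hload0 : load L μ I ∅ 0 = sI := load_zero L μ I ∅ (fun j hj => absurd hj (Finset.notMem_empty j))
  have hloadn : load L μ I ∅ (22 * m ^ 2) = 22 * m ^ 2 := CombB_load_big L μ I hI1 le_rfl
  have hDbig : ∀ l, 22 * m ^ 2 ≤ l → dem m X L σ μ I ∅ l = X - l := by
    intro l hl
    rw [dem, dem0, hsur0 l hl, CombB_load_big L μ I hI1 hl, add_zero]
  have hmild20 : ∀ l, l ≤ 22 * m ^ 2 → 20 * m ^ 2 +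
      m * (dem m X L σ μ I ∅ l - dem m X L σ μ I ∅ (l - 1)) ≤ dem m X L σ μ I ∅ l := by
    intro l hl
    refine mild20 (n := 22 * m ^ 2) μ I ∅ hm (by omega) (by omega) ?_ ?_ hl
    · rw [hload0]
      omega
    · rw [hloadn]
      omega
  have hD20 : ∀ l, l ≤ 22 * m ^ 2 → 20 * m ^ 2 ≤ dem m X L σ μ I ∅ l := fun l hl =>
    le_trans (Nat.le_add_right _ _) (hmild20 l hl)
  -- the sum of the demands
  have hsum : ∑ l ∈ Finset.range L, dem m X L σ μ I ∅ l + aI + b0 * t0 = tri X + σ := by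
    have h1 := sum_dem0 X L μ I ∅ (Nat.sub_le _ _) (fun i hi => (hI1 i hi).trans (by omega))
      (fun j hj => absurd hj (Finset.notMem_empty j)) hloadX
    have h2 := sum_sur m L σ (by omega)
    rw [Finset.sum_empty, add_zero, hXL, htrib] at h1
    have h3 : ∑ l ∈ Finset.range L, dem m X L σ μ I ∅ l =
        ∑ l ∈ Finset.range L, dem0 X L μ I ∅ l + ∑ l ∈ Finset.range L, sur m L σ l := by
      rw [← Finset.sum_add_distrib]
      rfl
    rw [h3, h2]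
    omega
  have htot : ∑ i ∈ T1 ∪ T2 ∪ T3, tri (μ i) = ∑ l ∈ Finset.range L, dem m X L σ μ I ∅ l := by
    omega
  have hDle : ∀ l, dem m X L σ μ I ∅ l ≤ X + 1 := by
    intro l
    have h1 := hsur l
    rw [dem, dem0]
    omega
  have hslack : (2 * m + 3) * (X + 1) ≤ 10 * m * X := by
    have h1 : 2 * m + 3 ≤ 5 * m := by omega
    have h2 : X + 1 ≤ 2 * X := by omega
    calc (2 * m + 3) * (X + 1) ≤ (5 * m) * (2 * X) := Nat.mul_le_mul h1 h2
      _ = 10 * m * X := by ring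
  have hSsub : ∀ i ∈ T1 ∪ T2 ∪ T3, i ∈ S := fun i hi => by
    rw [← hunion]
    exact Finset.mem_union_right _ hi
  have hsh : ∀ l, l < L → dem m X L σ μ I ∅ l < 8 * m ^ 2 →
      L ≤ dem m X L σ μ I ∅ l + l ∧
        ∀ l', l ≤ l' → l' < L → dem m X L σ μ I ∅ l' ≤ dem m X L σ μ I ∅ l := by
    intro l hl hD
    have hl22 : 22 * m ^ 2 < l := by
      by_contra h
      have := hD20 l (by omega)
      omega
    rw [hDbig l hl22.le]
    refine ⟨by omega, fun l' h1 h2 => ?_⟩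
    rw [hDbig l' (by omega)]
    omega
  obtain ⟨p, n, hA', hfill⟩ := fill (Dm := X + 1) (L := L) (D := dem m X L σ μ I ∅) μ T1 T2 T3
    h12 h123 hμ0 hμ0m hT1μ
    (fun i hi => ⟨hS1 i (hSsub i (Finset.mem_union_left _ (Finset.mem_union_right _ hi))),
      hU i (hSU (hSsub i (Finset.mem_union_left _ (Finset.mem_union_right _ hi))))⟩) hT3μ
    (by omega) (by omega) (fun l _ => hDle l)
    (by
      intro l hl
      unfold Mild
      have e4 : μ0 * μ0 ≤ m ^ 2 := by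
        have : μ0 * μ0 ≤ m * m := Nat.mul_le_mul hμ0m hμ0m
        nlinarith
      rcases Nat.lt_or_ge (22 * m ^ 2) l with h | h
      · rw [hDbig l h.le, hDbig (l - 1) (by omega)]
        have h5 : X - l - (X - (l - 1)) = 0 := by omega
        rw [h5, mul_zero, add_zero]
        have h6 : μ0 * μ0 = μ0 ^ 2 := by ring
        rw [h6]
        omega
      · have h5 := hmild20 l h
        have h6 : μ0 * (dem m X L σ μ I ∅ l - dem m X L σ μ I ∅ (l - 1)) ≤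
            m * (dem m X L σ μ I ∅ l - dem m X L σ μ I ∅ (l - 1)) := Nat.mul_le_mul_right _ hμ0m
        omega)
    (by
      intro l hl h8
      rcases Nat.lt_or_ge (22 * m ^ 2) l with h | h
      · have h5 : dem m X L σ μ I ∅ l - dem m X L σ μ I ∅ (l - 1) = 0 := by
          rw [hDbig l h.le, hDbig (l - 1) (by omega)]
          omega
        rw [h5, mul_zero, add_zero]
        exact h8
      · have h5 := hmild20 l h
        omega)
    (by
      intro l hl h8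
      rcases Nat.lt_or_ge (22 * m ^ 2) l with h | h
      · rw [hDbig (l + 1) (by omega)] at h8
        rw [hDbig l h.le]
        omega
      · have h5 := hD20 l h
        omega)
    (by
      intro q F hR hF
      exact deep hR hm hμ0 hμ0m hsh (by rw [hF, harea1]; exact ha1lo))
    (fun l hl => hmild20 l (by omega))
    (fun l hl => dem_conc μ I ∅ hm hloadX (by omega) l hl)
    (by rw [← htot, harea123, harea3]; omega) htot
  -- add the large points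
  set I1 := I.filter fun i => 1 ≤ μ i with hI1def
  have hI1I : I1 ⊆ I := Finset.filter_subset _ _
  have hTU : T1 ∪ T2 ∪ T3 ⊆ U := fun i hi => hSU (hSsub i hi)
  have hTI : Disjoint (T1 ∪ T2 ∪ T3) I1 := by
    rw [Finset.disjoint_left]
    intro i hi hi'
    exact Finset.disjoint_left.1 hIU (hI1I hi') (hTU hi)
  refine ⟨μ0, B, (T1 ∪ T2 ∪ T3) ∪ I1, fun i => if i ∈ I1 then 0 else p i,
    fun i => if i ∈ I1 then 1 else n i, hμ0, hμ0m, ?_, hBc, hBμ, by omega, ?_, ?_, ?_⟩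
  · rw [Finset.disjoint_union_right]
    refine ⟨hBT, ?_⟩
    rw [Finset.disjoint_left]
    intro i hi hi'
    refine Finset.disjoint_left.1 hIU (hI1I hi') (hSU ?_)
    rw [← hunion]
    exact Finset.mem_union_left _ hi
  · exact Finset.union_subset (hTU.trans Finset.subset_union_right)
      (hI1I.trans Finset.subset_union_left)
  · intro i hi
    by_cases h : i ∈ I1
    · simp only [if_pos h]
      refine ⟨le_rfl, (Finset.mem_filter.1 h).2, by omega, by omega, fun h' => ?_⟩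
      omega
    · simp only [if_neg h]
      refine hA' i ?_
      rcases Finset.mem_union.1 hi with hi | hi
      · exact hi
      · exact absurd hi h
  · intro l hl
    rw [Finset.sum_union hTI]
    have h1 : ∑ i ∈ T1 ∪ T2 ∪ T3, pat (μ i) (if i ∈ I1 then 0 else p i)
        (if i ∈ I1 then 1 else n i) l = dem m X L σ μ I ∅ l := by
      rw [← hfill l hl]
      refine Finset.sum_congr rfl fun i hi => ?_
      have h : i ∉ I1 := fun h => Finset.disjoint_left.1 hTI hi h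
      rw [if_neg h, if_neg h]
    have h2 : ∑ i ∈ I1, pat (μ i) (if i ∈ I1 then 0 else p i) (if i ∈ I1 then 1 else n i) l =
        ∑ i ∈ I, (μ i - l) := by
      rw [hI1def, Finset.sum_filter]
      refine Finset.sum_congr rfl fun i hi => ?_
      by_cases h : 1 ≤ μ i
      · have h' : i ∈ I1 := Finset.mem_filter.2 ⟨hi, h⟩
        rw [if_pos h, if_pos h', if_pos h', CombB_pat]
      · rw [if_neg h]
        omega
    rw [h1, h2]
    have h3 := CombB_load L μ I l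
    rw [dem, dem0]
    have h4 := hloadX l hl
    omega

end ShghQG
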