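import Mathlib

/-!
# Concave sequences
-/

namespace ShghQG

/-- `f` is concave on `0, 1, ..., n`. -/
def Conc (n : ℕ) (f : ℕ → ℤ) : Prop := ∀ l, l + 2 ≤ n → f l + f (l + 2) ≤ 2 * f (l + 1)

/-- The slopes decrease. -/
theorem Conc.slope {n : ℕ} {f : ℕ → ℤ} (h : Conc n f) {a b : ℕ} (hab : a ≤ b) (hb : b + 1 ≤ n) :
    f (b + 1) - f b ≤ f (a + 1) - f a := by
  induction b, hab using Nat.le_induction with
  | base => exact le_refl _
  | succ b hab ih =>
    have h1 := ih (by omega)
    have h2 := h b (by omega)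
    have h3 : f (b + 1 + 1) = f (b + 2) := rfl
    rw [h3]
    linarith

/-- A sequence with nonnegative slopes is nondecreasing. -/
theorem Conc_tel {f : ℕ → ℤ} {a b : ℕ} (hab : a ≤ b) (h : ∀ l, a ≤ l → l < b → f l ≤ f (l + 1)) :
    f a ≤ f b := by
  induction b, hab using Nat.le_induction with
  | base => exact le_refl _
  | succ b hab ih =>
    exact (ih fun l h1 h2 => h l h1 (by omega)).trans (h b hab (by omega))

/-- `f l ≥ min (f 0) (f n)` (if `f l < f 0` then some slope before `l` is negative, so all slopes after `l` are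
negative and `f l ≥ f n`). -/
theorem Conc.min_le {n : ℕ} {f : ℕ → ℤ} (h : Conc n f) {l : ℕ} (hl : l ≤ n) :
    min (f 0) (f n) ≤ f l := by
  by_contra hcon
  push Not at hcon
  obtain ⟨h1, h2⟩ := lt_min_iff.1 hcon
  have h3 : ∃ a, a < l ∧ f (a + 1) < f a := by
    by_contra hno
    push Not at hno
    exact absurd (Conc_tel (Nat.zero_le l) fun a _ ha => hno a ha) (not_le.2 h1)
  have h4 : ∃ b, l ≤ b ∧ b < n ∧ f b < f (b + 1) := by
    by_contra hno
    push Not at hno
    have h5 := Conc_tel (f := fun k => - f k) hl fun a ha hb => neg_le_neg (hno a ha hb)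
    have h6 : f n ≤ f l := neg_le_neg_iff.1 h5
    exact absurd h6 (not_le.2 h2)
  obtain ⟨a, ha, ha'⟩ := h3
  obtain ⟨b, hb, hbn, hb'⟩ := h4
  have h5 := h.slope (show a ≤ b by omega) (show b + 1 ≤ n by omega)
  linarith

/-- If the slope at `l` is not negative then all slopes before are not negative. -/
theorem Conc.zero_le {n : ℕ} {f : ℕ → ℤ} (h : Conc n f) {l : ℕ} (hl : l + 1 ≤ n)
    (hs : f l ≤ f (l + 1)) : f 0 ≤ f l := by
  refine Conc_tel (Nat.zero_le l) fun a _ ha => ?_
  have h1 := h.slope (show a ≤ l by omega) hl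
  linarith

theorem Conc_four {n : ℕ} {f : ℕ → ℤ} (h : Conc n f) {x t b : ℕ} (hxb : x ≤ b)
    (hb : b + t ≤ n) : f x + f (b + t) ≤ f (x + t) + f b := by
  induction t with
  | zero => rw [add_zero, add_zero]
  | succ t ih =>
    have h1 := ih (by omega)
    have h2 := h.slope (show x + t ≤ b + t by omega) (show b + t + 1 ≤ n by omega)
    rw [← add_assoc, ← add_assoc]
    linarith

/-- `f a + f b ≥ f (a - t) + f (b + t)` for `a ≤ b`; here in the form with `a - t = x`. -/
theorem Conc.four {n : ℕ} {f : ℕ → ℤ} (h : Conc n f) {x t b : ℕ} (hxb : x + t ≤ b)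
    (hb : b + t ≤ n) : f x + f (b + t) ≤ f (x + t) + f b :=
  Conc_four h (by omega) hb

/-- For `q ≤ n`, `f 0 ≥ 0` and `f n ≥ 0`: `2 Σ_{l≤n} f l ≥ n f q`. Sum of `f l + f (q - l) ≥ f 0 + f q ≥ f q` over
`l ≤ q` (`Conc.four`, `Finset.sum_range_reflect`) and of `f (q + t) + f (n - t) ≥ f q + f n ≥ f q` over
`t ≤ n - q`: `2 Σ_{l≤n} f l + 2 f q ≥ (q + 1) f q + (n - q + 1) f q`. -/
theorem Conc.area {n : ℕ} {f : ℕ → ℤ} (h : Conc n f) (h0 : 0 ≤ f 0) (hn : 0 ≤ f n) {q : ℕ}
    (hq : q ≤ n) : (n : ℤ) * f q ≤ 2 * ∑ l ∈ Finset.range (n + 1), f l := by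
  obtain ⟨k, rfl⟩ := Nat.exists_eq_add_of_le hq
  -- first half
  have h1 : ((q : ℤ) + 1) * f q ≤ 2 * ∑ l ∈ Finset.range (q + 1), f l := by
    have h2 : ∑ l ∈ Finset.range (q + 1), f (q - l) = ∑ l ∈ Finset.range (q + 1), f l := by
      rw [← Finset.sum_range_reflect f (q + 1)]
      exact Finset.sum_congr rfl fun l _ => by rw [Nat.add_sub_cancel]
    have h3 : ∑ _l ∈ Finset.range (q + 1), f q ≤
        ∑ l ∈ Finset.range (q + 1), (f l + f (q - l)) := by
      refine Finset.sum_le_sum fun l hl => ?_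
      rw [Finset.mem_range] at hl
      have h4 := Conc_four h (x := 0) (t := l) (b := q - l) (Nat.zero_le _) (by omega)
      rw [Nat.sub_add_cancel (by omega), zero_add] at h4
      linarith
    rw [Finset.sum_add_distrib, h2, Finset.sum_const, Finset.card_range, nsmul_eq_mul] at h3
    push_cast at h3
    linarith
  -- second half
  have h2 : ((k : ℤ) + 1) * f q ≤ 2 * ∑ t ∈ Finset.range (k + 1), f (q + t) := by
    have h3 : ∑ t ∈ Finset.range (k + 1), f (q + (k - t)) =
        ∑ t ∈ Finset.range (k + 1), f (q + t) := by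
      rw [← Finset.sum_range_reflect (fun t => f (q + t)) (k + 1)]
      exact Finset.sum_congr rfl fun l _ => by rw [Nat.add_sub_cancel]
    have h4 : ∑ _t ∈ Finset.range (k + 1), f q ≤
        ∑ t ∈ Finset.range (k + 1), (f (q + t) + f (q + (k - t))) := by
      refine Finset.sum_le_sum fun t ht => ?_
      rw [Finset.mem_range] at ht
      have h5 := Conc_four h (x := q) (t := t) (b := q + (k - t)) (by omega) (by omega)
      have h6 : q + (k - t) + t = q + k := by omega
      rw [h6] at h5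
      linarith
    rw [Finset.sum_add_distrib, h3, Finset.sum_const, Finset.card_range, nsmul_eq_mul] at h4
    push_cast at h4
    linarith
  have h3 : ∑ l ∈ Finset.range (q + k + 1), f l =
      ∑ l ∈ Finset.range q, f l + ∑ t ∈ Finset.range (k + 1), f (q + t) := by
    rw [add_assoc, Finset.sum_range_add]
  rw [Finset.sum_range_succ] at h1
  rw [h3]
  push_cast
  linarith

end ShghQG
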