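import Pool.Agent.ShghQG.AlgA
import Pool.Agent.ShghQG.CombA
import Pool.Agent.ShghQG.CombB
import Pool.Agent.ShghT.SemiB

/-!
# Existence of good configurations
-/

namespace ShghQG

open ShghQ MvPolynomial

/-- `combA` with `X = δ + 1`, `M0 = μ i0`, `U = univ \ insert i0 (I ∪ J)`, and `algA` for the infinite field
`FractionRing k[ξ]`. -/
theorem exists_configA {k : Type*} [Field k] [Infinite k] {s : ℕ} (μ : Fin s → ℕ) (m κ δ : ℕ)
    (i0 : Fin s) (I J : Finset (Fin s)) (hm : 1 ≤ m) (hκ1 : 1 ≤ κ) (hIJ : Disjoint I J)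
    (hi0 : i0 ∉ I ∪ J) (hU : ∀ i, i ≠ i0 → i ∉ I ∪ J → μ i ≤ m)
    (hκ : (((Finset.univ \ insert i0 (I ∪ J)).image μ).erase 0).card ≤ κ)
    (hL : ∀ i ∈ I ∪ J, μ i + μ i0 ≤ δ)
    (hI : ∑ i ∈ I, (μ i + m) + 22 * m ^ 2 ≤ δ + 1) (hJ : ∑ j ∈ J, μ j + 22 * m ^ 2 ≤ μ i0)
    (hX : μ i0 + 20 * κ * m ≤ δ) (hcov : tri (δ + 1) ≤ ∑ i, tri (μ i)) :
    ∃ P : Fin s → Fin 2 → FractionRing (Polynomial (FractionRing (Polynomial k))),
      ∀ f ∈ ShghT.LS δ μ P, f = 0 := by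
  classical
  set U : Finset (Fin s) := Finset.univ \ insert i0 (I ∪ J) with hUdef
  have hIU : Disjoint (I ∪ J) U := by
    rw [Finset.disjoint_left]
    intro i hi hiU
    rw [hUdef, Finset.mem_sdiff] at hiU
    exact hiU.2 (Finset.mem_insert_of_mem hi)
  have hi0U : i0 ∉ I ∪ J ∪ U := by
    rw [Finset.mem_union]
    rintro (h | h)
    · exact hi0 h
    · rw [hUdef, Finset.mem_sdiff] at h
      exact h.2 (Finset.mem_insert_self _ _)
  have huniv : (Finset.univ : Finset (Fin s)) = insert i0 (I ∪ J ∪ U) := by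
    ext i
    simp only [Finset.mem_univ, true_iff]
    by_cases h1 : i = i0
    · rw [h1]
      exact Finset.mem_insert_self _ _
    · by_cases h2 : i ∈ I ∪ J
      · exact Finset.mem_insert_of_mem (Finset.mem_union_left _ h2)
      · refine Finset.mem_insert_of_mem (Finset.mem_union_right _ ?_)
        rw [hUdef, Finset.mem_sdiff, Finset.mem_insert]
        exact ⟨Finset.mem_univ _, by rintro (h | h) <;> contradiction⟩
  have hcov' : tri (δ + 1) ≤ tri (μ i0) + ∑ i ∈ I ∪ J ∪ U, tri (μ i) := by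
    rw [huniv, Finset.sum_insert hi0U] at hcov
    exact hcov
  obtain ⟨T, p, n, hT, hA, hc⟩ := combA μ m κ (δ + 1) (μ i0) I J U hm hκ1 hIJ hIU
    (fun i hi => by
      rw [hUdef, Finset.mem_sdiff, Finset.mem_insert, not_or] at hi
      exact hU i hi.2.1 hi.2.2)
    hκ (fun i hi => Nat.lt_succ_of_le (hL i hi)) hI hJ (Nat.lt_succ_of_le hX) hcov'
  haveI : Infinite (FractionRing (Polynomial k)) :=
    Infinite.of_injective (algebraMap (Polynomial k) (FractionRing (Polynomial k)))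
      (IsFractionRing.injective _ _)
  obtain ⟨P, hP⟩ := algA (K := FractionRing (Polynomial k)) μ δ i0 T p n
    (fun h => hi0U (hT h)) (by omega) hA hc
  exact ⟨P, fun f hf => hP f hf.1 hf.2⟩

/-- `combB` with `X = δ + 1`, `U = univ \ I`, and `algB`. -/
theorem exists_configB {k : Type*} [Field k] [Infinite k] {s : ℕ} (μ : Fin s → ℕ) (m κ δ : ℕ)
    (I : Finset (Fin s)) (hm : 1 ≤ m) (hκ1 : 1 ≤ κ) (hU : ∀ i, i ∉ I → μ i ≤ m)
    (hκ : (((Finset.univ \ I).image μ).erase 0).card ≤ κ) (hI1 : ∀ i ∈ I, μ i ≤ 22 * m ^ 2)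
    (hI : ∑ i ∈ I, (μ i + m) + 22 * m ^ 2 ≤ δ + 1) (hX : 6400 * κ * m ^ 4 ≤ (δ + 1) ^ 2)
    (hcov : tri (δ + 1) ≤ ∑ i, tri (μ i)) :
    ∃ P : Fin s → Fin 2 → FractionRing (Polynomial (FractionRing (Polynomial k))),
      ∀ f ∈ ShghT.LS δ μ P, f = 0 := by
  classical
  have hIU : Disjoint I (Finset.univ \ I) := Finset.disjoint_sdiff
  have huniv : I ∪ (Finset.univ \ I) = Finset.univ :=
    Finset.union_sdiff_of_subset (Finset.subset_univ I)
  obtain ⟨μ0, B, T, p, n, hμ0, -, hBT, hB, hBμ, hX', -, hA, hc⟩ :=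
    combB μ m κ (δ + 1) I (Finset.univ \ I) hm hIU
      (fun i hi => hU i (Finset.mem_sdiff.1 hi).2) hκ hI1 hI hκ1 hX (by rw [huniv]; exact hcov)
  obtain ⟨P, hP⟩ := algB (k := k) μ δ μ0 B T p n hμ0 hBT hB hBμ hX' hA hc
  exact ⟨P, fun f hf => hP f hf.1 hf.2⟩

end ShghQG
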