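import Pool.Agent.ShghQ.Cov

/-!
# The covering theorem for a bounded number of columns
-/

namespace ShghQG

open ShghQ MvPolynomial

variable {K : Type*} [Field K]

/-- Adapt the proof of `ShghQ.cov` (`ShghQ.Cov_min` can be used): the columns `l ≥ L` of `f` are zero by `hx`
(`coeff_colp`), so the case `L ≤ l₀` is trivial. -/
theorem covA {ι : Type*} [Fintype ι] (δ L : ℕ) (m : ι → ℕ) (c : ι → ℕ) (y : ι → K)
    (hy : Function.Injective y) (u : ℕ → ℤ) (huL : ∀ l, L ≤ l → u l = u L) (a : ι → ℕ → ℕ)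
    (hfit : ∀ i l₀, l₀ < L → 0 < a i l₀ →
      ∃ s, ∀ l, val u (c i) l₀ ≤ val u (c i) l → s ≤ l ∧ l + a i l₀ ≤ s + m i)
    (hcov : ∀ l, l < L → δ + 1 ≤ l + ∑ i, a i l)
    (f : MvPolynomial (Fin 2) (Polynomial K)) (hδ : f.totalDegree ≤ δ)
    (hx : ∀ e ∈ f.support, e 0 < L)
    (hf : ∀ i, f ∈ pt (Polynomial.X ^ c i) (Polynomial.C (y i)) ^ m i) : f = 0 := by
  by_contra hf0
  obtain ⟨v, hv, n₀, l₀, h₀, hn⟩ := Cov_min f hf0 L u huL
  rcases le_or_gt L l₀ with hl | hl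
  · apply h₀
    ext j
    rw [coeff_colp, Polynomial.coeff_zero]
    have h1 : MvPolynomial.coeff (ex l₀ j) f = 0 := by
      by_contra hne
      have h2 := hx _ (MvPolynomial.mem_support_iff.mpr hne)
      have h3 : (ex l₀ j) 0 = l₀ := by simp [ex]
      omega
    rw [h1, Polynomial.coeff_zero]
  · apply h₀
    refine ShghT.hermite Finset.univ y hy.injOn (fun i => a i l₀) _ ?_ ?_
    · intro i _ b hb
      obtain ⟨s, hs⟩ := hfit i l₀ hl (lt_of_le_of_lt (Nat.zero_le _) hb)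
      exact van f δ hδ u v hv (c i) (y i) (m i) (hf i) n₀ l₀ (a i l₀) s hn hs b hb
    · intro j hj
      refine colp_coeff_zero f hδ n₀ l₀ j ?_
      have := hcov l₀ hl
      omega

end ShghQG
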