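import Pool.Agent.ShghQG.Phase
import Pool.Agent.ShghQ.Fill12

/-!
# The first two groups of points (general demands)
-/

namespace ShghQG

open ShghQ

/-- Adapt the proof of `ShghQ.fill12`.
1. The zero function (with `S = ∅`) satisfies `Reg m L D 0 μ0 (L - 1)`. `phase` with `S = ∅`, `T = T1`, `M = μ0`
   (`hmild0`); it gives `p1`, `n1`, `q1`.
2. `hdeep q1` (`sum_fillOf` with `m ≤ L`): `8 m² ≤ D q1`.
3. By `hdown`, `8 m² ≤ D l` for all `l ≤ q1`, so `Mild m D l` by `hmild`.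
   `Reg` with `M = μ0` implies `Reg` with `M = m` (`F l ≤ F (l+1)`). `phase` with `S = T1`, `T = T2`, `M = m`.
4. `q ≤ q1`, so `8 m² ≤ D q`; `room` with `k = 2 m` and `ha2`. -/
theorem fill12 {s : ℕ} (μ : Fin s → ℕ) {m μ0 L Dm : ℕ} {D : ℕ → ℕ} (T1 T2 : Finset (Fin s))
    (h12 : Disjoint T1 T2) (hμ0 : 1 ≤ μ0) (hμ0m : μ0 ≤ m) (hT1 : ∀ i ∈ T1, μ i = μ0)
    (hT2 : ∀ i ∈ T2, 1 ≤ μ i ∧ μ i ≤ m) (hL1 : 1 ≤ L) (hmL : m ≤ L)
    (hDm : ∀ l, l < L → D l ≤ Dm) (hmild0 : ∀ l, l < L → Mild μ0 D l)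
    (hmild : ∀ l, l < L → 8 * m ^ 2 ≤ D l → 8 * m ^ 2 + m * (D l - D (l - 1)) ≤ D l)
    (hdown : ∀ l, l + 1 < L → 8 * m ^ 2 ≤ D (l + 1) → 8 * m ^ 2 ≤ D l)
    (hdeep : ∀ (q : ℕ) (F : ℕ → ℕ), Reg m L D F μ0 q →
      ∑ l ∈ Finset.range L, F l = ∑ i ∈ T1, tri (μ i) → 8 * m ^ 2 ≤ D q)
    (ha2 : ∑ i ∈ T1 ∪ T2, tri (μ i) + (2 * m + 3) * Dm ≤ ∑ l ∈ Finset.range L, D l) :
    ∃ p n q, (∀ i ∈ T1 ∪ T2, Adm L (μ i) (p i) (n i)) ∧ 2 * m ≤ q ∧ 8 * m ^ 2 ≤ D q ∧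
      Reg m L D (fillOf (T1 ∪ T2) μ p n) m q := by
  have hDm1 : 1 ≤ Dm := by
    have h1 := hDm (L - 1) (by omega)
    have h2 : μ0 * μ0 + μ0 * (D (L - 1) - D (L - 1 - 1)) ≤ D (L - 1) := hmild0 (L - 1) (by omega)
    have h3 : 1 ≤ μ0 * μ0 := Nat.mul_pos hμ0 hμ0
    omega
  have hs1 : ∑ i ∈ T1, tri (μ i) ≤ ∑ i ∈ T1 ∪ T2, tri (μ i) :=
    Finset.sum_le_sum_of_subset Finset.subset_union_left
  have hR0 : Reg m L D (fillOf (∅ : Finset (Fin s)) μ (fun _ => 0) (fun _ => 0)) μ0 (L - 1) := by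
    refine ⟨by omega, fun l h1 h2 => absurd h1 (by omega), fun l _ => ?_, fun l _ => ?_,
      fun l _ => ?_⟩
    · rw [fillOf, Finset.sum_empty]
      exact Nat.zero_le _
    · rw [fillOf, fillOf, Finset.sum_empty, Finset.sum_empty]
      exact le_rfl
    · rw [fillOf, Finset.sum_empty]
  have hm2 : (m + 2) * Dm ≤ (2 * m + 3) * Dm := Nat.mul_le_mul_right _ (by omega)
  have hm3 : 2 * m * Dm + 3 * Dm = (2 * m + 3) * Dm := by ring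
  obtain ⟨p1, n1, q1, hA1, hq1, hR1⟩ := phase μ hμ0 hμ0m hmL hDm ∅ T1
    (Finset.disjoint_empty_left _) (fun i hi => absurd hi (Finset.notMem_empty i))
    (fun i hi => by rw [hT1 i hi]; exact ⟨hμ0, le_rfl⟩) (fun _ => 0) (fun _ => 0) (L - 1)
    (fun l hl => hmild0 l (by omega))
    (fun i hi => absurd hi (Finset.notMem_empty i)) hR0 (by
      rw [Finset.empty_union]
      omega)
  rw [Finset.empty_union] at hA1 hR1
  have hq1L : q1 < L := by omega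
  have hT1m : ∀ i ∈ T1, μ i ≤ m := fun i hi => by rw [hT1 i hi]; exact hμ0m
  have hm1 : 1 ≤ m := hμ0.trans hμ0m
  have hd1 : 8 * m ^ 2 ≤ D q1 := hdeep q1 _ hR1 (sum_fillOf hmL T1 μ p1 n1 hT1m hA1)
  have hd : ∀ k, k ≤ q1 → 8 * m ^ 2 ≤ D (q1 - k) := by
    intro k
    induction k with
    | zero => intro _; exact hd1
    | succ k ih =>
      intro hk
      refine hdown (q1 - (k + 1)) (by omega) ?_
      have h1 : q1 - (k + 1) + 1 = q1 - k := by omega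
      rw [h1]
      exact ih (by omega)
  have hd' : ∀ l, l ≤ q1 → 8 * m ^ 2 ≤ D l := by
    intro l hl
    have h1 := hd (q1 - l) (by omega)
    rwa [Nat.sub_sub_self hl] at h1
  have hmild' : ∀ l, l ≤ q1 → Mild m D l := by
    intro l hl
    have h1 := hmild l (by omega) (hd' l hl)
    have h2 : m * m ≤ 8 * m ^ 2 := by nlinarith
    unfold Mild
    omega
  obtain ⟨p2, n2, q2, hA2, hq2, hR2⟩ := phase μ hm1 le_rfl hmL hDm T1 T2 h12 hT1m hT2 p1 n1 q1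
    hmild' hA1 (Fill12_reg hR1 hμ0 hμ0m) (by omega)
  refine ⟨p2, n2, q2, hA2, ?_, hd' q2 hq2, hR2⟩
  refine room (k := 2 * m) hR2 hDm ?_
  rw [sum_fillOf hmL (T1 ∪ T2) μ p2 n2 (fun i hi => ?_) hA2]
  · omega
  · rcases Finset.mem_union.1 hi with hi | hi
    · exact hT1m i hi
    · exact (hT2 i hi).2

end ShghQG
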