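import Pool.Agent.ShghQG.Step
import Pool.Agent.ShghQ.Phase

/-!
# First phase: placing a set of points (general demands)
-/

namespace ShghQG

open ShghQ

/-- Adapt the proof of `ShghQ.phase` (with `ShghQG.step` instead of `ShghQ.step`; `ShghQ.room`,
`ShghQ.sum_fillOf` and `ShghQ.Phase_update` can be used). `Mild M D l` gives `M * M ≤ D l`. -/
theorem phase {s : ℕ} (μ : Fin s → ℕ) {m L M Dm : ℕ} {D : ℕ → ℕ} (hM1 : 1 ≤ M) (hM : M ≤ m)
    (hmL : m ≤ L) (hDm : ∀ l, l < L → D l ≤ Dm)
    (S T : Finset (Fin s)) (hST : Disjoint S T) (hS : ∀ i ∈ S, μ i ≤ m)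
    (hT : ∀ i ∈ T, 1 ≤ μ i ∧ μ i ≤ M) (p n : Fin s → ℕ) (q : ℕ)
    (hD : ∀ l, l ≤ q → Mild M D l)
    (hAdm : ∀ i ∈ S, Adm L (μ i) (p i) (n i)) (hR : Reg m L D (fillOf S μ p n) M q)
    (harea : ∑ i ∈ S ∪ T, tri (μ i) + (m + 2) * Dm ≤ ∑ l ∈ Finset.range L, D l) :
    ∃ p' n' q', (∀ i ∈ S ∪ T, Adm L (μ i) (p' i) (n' i)) ∧ q' ≤ q ∧
      Reg m L D (fillOf (S ∪ T) μ p' n') M q' := by
  classical
  induction T using Finset.induction_on generalizing S p n q with
  | empty =>
    refine ⟨p, n, q, ?_, le_rfl, ?_⟩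
    · intro i hi
      rw [Finset.union_empty] at hi
      exact hAdm i hi
    · rw [Finset.union_empty]
      exact hR
  | insert a T haT ih =>
    have haS : a ∉ S := fun h => Finset.disjoint_left.1 hST h (Finset.mem_insert_self a T)
    have ha := hT a (Finset.mem_insert_self a T)
    have hunion : insert a S ∪ T = S ∪ insert a T := by
      ext i
      simp only [Finset.mem_union, Finset.mem_insert]
      tauto
    -- room
    have hMM : 1 ≤ M * M := Nat.mul_pos hM1 hM1
    have hDq : M * M ≤ D q := by
      have h1 := hD q le_rfl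
      unfold Mild at h1
      omega
    have hDm1 : 1 ≤ Dm := hMM.trans (hDq.trans (hDm q hR.q_lt))
    have hsub : ∑ i ∈ S, tri (μ i) ≤ ∑ i ∈ S ∪ insert a T, tri (μ i) :=
      Finset.sum_le_sum_of_subset Finset.subset_union_left
    have hroom : m + 1 ≤ q := by
      refine room hR hDm ?_
      rw [sum_fillOf hmL S μ p n hS hAdm]
      have h1 : (m + 2) * Dm = (m + 1) * Dm + Dm := by ring
      omega
    obtain ⟨p₁, n₁, q₁, hA₁, hq₁, hq₁', hR₁⟩ := step (ν := μ a) hR hM ha.1 ha.2 hroom hD
    have hfun : fillOf (insert a S) μ (Function.update p a p₁) (Function.update n a n₁) =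
        fun l => fillOf S μ p n l + pat (μ a) p₁ n₁ l := by
      funext l
      exact Phase_update S μ p n a haS p₁ n₁ l
    obtain ⟨p', n', q', h1, h2, h3⟩ := ih (insert a S) (by
        rw [Finset.disjoint_insert_left]
        exact ⟨haT, Finset.disjoint_of_subset_right (Finset.subset_insert a T) hST⟩)
      (by
        intro i hi
        rcases Finset.mem_insert.1 hi with rfl | hi
        · exact ha.2.trans hM
        · exact hS i hi)
      (fun i hi => hT i (Finset.mem_insert_of_mem hi))
      (Function.update p a p₁) (Function.update n a n₁) q₁ (fun l hl => hD l (hl.trans hq₁)) (by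
        intro i hi
        by_cases hia : i = a
        · rw [hia, Function.update_self, Function.update_self]
          exact hA₁
        · rw [Function.update_of_ne hia, Function.update_of_ne hia]
          exact hAdm i (Finset.mem_of_mem_insert_of_ne hi hia))
      (by
        rw [hfun]
        exact hR₁) (by
        rw [hunion]
        exact harea)
    rw [hunion] at h1 h3
    exact ⟨p', n', q', h1, h2.trans hq₁, h3⟩

end ShghQG
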